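import Pool.Agent.Lib.MP_b197b4_ntLV.LDefs
import Pool.Agent.Lib.MP_b197b4_ntUV.A

/-!
# LV, leaf LA: the relation of a chain of units

`LA_chain`: induction on `l` (for all `i`, `u`).  `l = []`: `u i = 1` and `lam` is zero because one entry is
`Additive.ofMul 1 = 0` (`map_coord_zero`).  `l = j :: l'`: `b = u i + u j` is a unit (`t = 1`).
`lam (.. u i .. u j ..) = lam (.. u i .. u j / b ..) + lam (.. u i .. b ..)`,
`lam (.. u i .. u j / b ..) = lam (.. u i / b .. u j / b ..) + lam (.. b .. u j / b ..)`,
`lam (.. b .. u j ..) = lam (.. b .. u j / b ..) + lam (.. b .. b ..)`: the first on the right is zero by `hS`,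
`lam (.. b .. b ..) = 0`.  So `lam u = lam (update u i b) + lam (update u j b)`, and both are zero by the induction hypothesis for
`l'` with `i`, `update u i b` (partial sums `b + ..`), and with `j`, `update u j b`.  Compare `A_L_sum_one` in ntUV/A.lean
(copy the bilinear expansion, `A_L_mul`).

`LA_rel`: copy of `A_rel` in ntUV/A.lean: `u j = - f j.succ / f 0`; the list of `ChainU` is `i :: l'` (for `N = 0` it is empty and
`f 0 = 0`, impossible); its partial sums divided by `- f 0` are units, the total sum is `1`; `LA_chain`, `A_L_neg`, `A_quot_sum`.
-/

set_option autoImplicit false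

namespace Pool.Agent.MP_b197b4_ntLV

open scoped BigOperators
open Pool.Agent.MP_b197b4_ntUV

variable {K F : Type*} [Field K] [Field F] [Algebra K F] {N : ℕ}

theorem LA_chain (P : SL K F) (lam : (Additive Fˣ) [⋀^Fin N]→ₗ[ℤ] ℝ) (hS : StU P lam) (l : List (Fin N)) :
    ∀ (i : Fin N) (u : Fin N → Fˣ), (∀ j, IsU P (u j : F)) → (i :: l).Nodup →
      (∀ t, IsU P ((u i : F) + ((l.take t).map fun j => (u j : F)).sum)) →
      (u i : F) + (l.map fun j => (u j : F)).sum = 1 → lam (fun j => Additive.ofMul (u j)) = 0 := by
  induction l with
  | nil =>
    intro i u _ _ _ h
    rw [List.map_nil, List.sum_nil, add_zero] at h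
    have h1 : u i = 1 := Units.ext h
    refine lam.map_coord_zero i ?_
    simp [h1]
  | cons j l ih =>
    intro i u hu hnd hp h
    rw [List.nodup_cons, List.nodup_cons, List.mem_cons, not_or] at hnd
    obtain ⟨⟨hij, hil⟩, hjl, hl⟩ := hnd
    have hbU : IsU P ((u i : F) + (u j : F)) := by
      have h1 := hp 1
      rw [List.take_succ_cons, List.take_zero, List.map_cons, List.map_nil, List.sum_cons,
        List.sum_nil, add_zero] at h1
      exact h1
    set b : Fˣ := Units.mk0 _ hbU.ne with hbdef
    have hbv : (b : F) = (u i : F) + (u j : F) := rfl
    have hbU' : IsU P (b : F) := hbU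
    -- Steinberg
    have hst : lam (fun l => Additive.ofMul
        (Function.update (Function.update u i (u i / b)) j (u j / b) l)) = 0 := by
      refine hS _ i j hij ?_ ?_
      · intro m
        by_cases hmj : m = j
        · rw [hmj, Function.update_self, Units.val_div_eq_div_val]
          exact (hu j).div hbU'
        · rw [Function.update_of_ne hmj]
          by_cases hmi : m = i
          · rw [hmi, Function.update_self, Units.val_div_eq_div_val]
            exact (hu i).div hbU'
          · rw [Function.update_of_ne hmi]
            exact hu m
      · rw [Function.update_self, Function.update_of_ne hij, Function.update_self]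
        rw [Units.val_div_eq_div_val, Units.val_div_eq_div_val, ← add_div, ← hbv]
        exact div_self b.ne_zero
    have hbb : lam (fun l => Additive.ofMul
        (Function.update (Function.update u i b) j b l)) = 0 := by
      refine lam.map_eq_zero_of_eq _ (i := i) (j := j) ?_ hij
      rw [Function.update_self, Function.update_of_ne hij, Function.update_self]
    -- the induction hypothesis, for the head `m` and the family with the entry `b` at `m`
    have key : ∀ m : Fin N, m ∉ l → lam (fun l => Additive.ofMul (Function.update u m b l)) = 0 := by
      intro m hm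
      have hmap : ∀ l' : List (Fin N), (∀ x ∈ l', x ∈ l) →
          (l'.map fun x => ((Function.update u m b x : Fˣ) : F)) = l'.map fun x => (u x : F) := by
        intro l' hl'
        refine List.map_congr_left fun x hx => ?_
        rw [Function.update_of_ne]
        intro hxm
        rw [hxm] at hx
        exact hm (hl' m hx)
      refine ih m (Function.update u m b) ?_ (List.nodup_cons.2 ⟨hm, hl⟩) ?_ ?_
      · intro x
        by_cases hx : x = m
        · rw [hx, Function.update_self]
          exact hbU'
        · rw [Function.update_of_ne hx]
          exact hu x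
      · intro t
        rw [hmap _ fun x hx => List.mem_of_mem_take hx, Function.update_self, hbv]
        have h1 := hp (t + 1)
        rw [List.take_succ_cons, List.map_cons, List.sum_cons, ← add_assoc] at h1
        exact h1
      · rw [hmap _ fun x hx => hx, Function.update_self, hbv]
        rw [List.map_cons, List.sum_cons, ← add_assoc] at h
        exact h
    have hib : lam (fun l => Additive.ofMul
        (Function.update (Function.update u i (u i)) j b l)) = 0 := by
      rw [Function.update_eq_self]
      exact key j hjl
    have hbj : lam (fun l => Additive.ofMul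
        (Function.update (Function.update u i b) j (u j) l)) = 0 := by
      have h1 : Function.update (Function.update u i b) j (u j) = Function.update u i b := by
        have h2 : u j = Function.update u i b j := by rw [Function.update_of_ne (Ne.symm hij)]
        rw [h2, Function.update_eq_self]
      rw [h1]
      exact key i hil
    have hupd : u = Function.update (Function.update u i (u i)) j (u j) := by
      rw [Function.update_eq_self, Function.update_eq_self]
    -- bilinear expansion
    have e1 : lam (fun l => Additive.ofMul
        (Function.update (Function.update u i (u i)) j (u j) l)) =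
        lam (fun l => Additive.ofMul
          (Function.update (Function.update u i (u i)) j (u j / b) l)) +
        lam (fun l => Additive.ofMul
          (Function.update (Function.update u i (u i)) j b l)) := by
      rw [← A_L_mul, div_mul_cancel]
    have e2 : lam (fun l => Additive.ofMul
        (Function.update (Function.update u i b) j (u j) l)) =
        lam (fun l => Additive.ofMul
          (Function.update (Function.update u i b) j (u j / b) l)) +
        lam (fun l => Additive.ofMul
          (Function.update (Function.update u i b) j b l)) := by
      rw [← A_L_mul, div_mul_cancel]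
    have e3 : lam (fun l => Additive.ofMul
        (Function.update (Function.update u i (u i)) j (u j / b) l)) =
        lam (fun l => Additive.ofMul
          (Function.update (Function.update u i (u i / b)) j (u j / b) l)) +
        lam (fun l => Additive.ofMul
          (Function.update (Function.update u i b) j (u j / b) l)) := by
      rw [Function.update_comm hij, Function.update_comm hij, Function.update_comm hij,
        ← A_L_mul, div_mul_cancel]
    rw [← hupd] at e1
    rw [e1, e3, hst, hib]
    rw [hbj, hbb] at e2
    linarith

private theorem LA_map {α : Type*} (l : List α) (g : α → F) (c : F) :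
    (l.map fun j => -(g j / c)).sum = (l.map g).sum / (-c) := by
  induction l with
  | nil =>
    rw [List.map_nil, List.map_nil, List.sum_nil, zero_div]
  | cons a l ih =>
    rw [List.map_cons, List.map_cons, List.sum_cons, List.sum_cons, ih, add_div, div_neg, div_neg]

theorem LA_rel (P : SL K F) (lam : (Additive Fˣ) [⋀^Fin N]→ₗ[ℤ] ℝ) (hS : StU P lam)
    (f : Fin (N + 1) → F) (hf : ∀ j, IsU P (f j)) (h0 : ∑ j, f j = 0) (hc : ChainU P f) (s : F) (hs : s ≠ 0) :
    ∑ i : Fin (N + 1), (-1 : ℝ) ^ (i : ℕ) * ev lam (fun j : Fin N => f (i.succAbove j) / s) = 0 := by
  obtain ⟨u, rfl⟩ := A_lift f fun j => (hf j).ne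
  obtain ⟨l0, hnd, hall, hpart⟩ := hc
  have hlen : l0.length ≤ N := by
    have h1 := hnd.length_le_card
    rwa [Fintype.card_fin] at h1
  have hval : ∀ j : Fin N, ((-(u j.succ / u 0) : Fˣ) : F) = -((u j.succ : F) / (u 0 : F)) := by
    intro j
    rw [Units.val_neg, Units.val_div_eq_div_val]
  have h1 : lam (fun l => Additive.ofMul (- (u l.succ / u 0))) = 0 := by
    cases l0 with
    | nil =>
      exfalso
      rw [Fin.sum_univ_succ] at h0
      have h2 : ∑ i : Fin N, (u i.succ : F) = 0 :=
        Finset.sum_eq_zero fun i _ => absurd (hall i) List.not_mem_nil
      rw [h2, add_zero] at h0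
      exact (hf 0).ne h0
    | cons i l =>
      refine LA_chain P lam hS l i (fun l : Fin N => - (u l.succ / u 0)) ?_ hnd ?_ ?_
      · intro j
        rw [hval]
        exact ((hf j.succ).div (hf 0)).neg
      · intro t
        have e1 : ((-(u i.succ / u 0) : Fˣ) : F) +
            ((l.take t).map fun j : Fin N => ((-(u j.succ / u 0) : Fˣ) : F)).sum =
            ((((i :: l).take (t + 1)).map fun j : Fin N => (u j.succ : F)).sum) / (-(u 0 : F)) := by
          rw [← LA_map, List.take_succ_cons, List.map_cons, List.sum_cons, hval,
            List.map_congr_left fun j _ => hval j]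
        rw [e1]
        refine IsU.div ?_ (hf 0).neg
        by_cases ht : t + 1 ≤ N
        · exact hpart (t + 1) (Nat.succ_pos t) ht
        · have e2 : (i :: l).take (t + 1) = (i :: l).take N := by
            rw [List.take_of_length_le hlen, List.take_of_length_le (by omega)]
          rw [e2]
          have hN : 0 < N := lt_of_le_of_lt (Nat.zero_le _) i.isLt
          exact hpart N hN le_rfl
      · have e1 : ((-(u i.succ / u 0) : Fˣ) : F) +
            (l.map fun j : Fin N => ((-(u j.succ / u 0) : Fˣ) : F)).sum =
            (((i :: l).map fun j : Fin N => (u j.succ : F)).sum) / (-(u 0 : F)) := by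
          rw [← LA_map, List.map_cons, List.sum_cons, hval, List.map_congr_left fun j _ => hval j]
        rw [e1]
        have e2 : ((i :: l).map fun j : Fin N => (u j.succ : F)).sum = ∑ j : Fin N, (u j.succ : F) := by
          rw [← List.sum_toFinset _ hnd]
          refine Finset.sum_congr ?_ fun _ _ => rfl
          ext j
          simp only [List.mem_toFinset, Finset.mem_univ, iff_true]
          exact hall j
        rw [Fin.sum_univ_succ] at h0
        rw [e2, eq_neg_of_add_eq_zero_right h0]
        exact div_self (neg_ne_zero.2 (hf 0).ne)
  have h2 := A_L_neg lam (fun l : Fin N => u l.succ / u 0) (fun _ => true)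
  simp only [if_true] at h2
  rw [h1] at h2
  set w : Fˣ := Units.mk0 s hs with hw
  have h3 := A_quot_sum lam (fun i => Additive.ofMul (u i / w))
  have h4 : (fun j : Fin N => Additive.ofMul (u j.succ / w) - Additive.ofMul (u 0 / w)) =
      fun j => Additive.ofMul (u j.succ / u 0) := by
    funext j
    rw [← ofMul_div, div_div_div_cancel_right]
  rw [h4, ← h2] at h3
  rw [h3]
  refine Finset.sum_congr rfl fun i _ => ?_
  congr 1
  have h5 : (fun j : Fin N => (u (i.succAbove j) : F) / s) =
      fun j => ((u (i.succAbove j) / w : Fˣ) : F) := by
    funext j
    rw [Units.val_div_eq_div_val]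
    rfl
  rw [h5, A_ev_units]

end Pool.Agent.MP_b197b4_ntLV
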