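import Pool.Agent.Lib.MP_b197b4_ntUV.FTor

/-!
# LV, leaf LAlt: Milnor K-groups of commutative rings, functionals are alternating

Copy of ntUV/FAlt.lean for a commutative ring `R` in place of the field `F`.  The only change: `symbol_antisymm` needs
`c x (-x) = 0`, which is the hypothesis `hneg` of `LAlt_torsion`, and is proved in `LAlt_neg` for semilocal rings over
an infinite field `k` all of whose elements `≠ 0` are roots of unity.

`LAlt_neg`: if `1 - x` is a unit, then so is `1 - x⁻¹ = - (1 - x) / x` and `-x = (1 - x) / (1 - x⁻¹)`, as in FAlt.  In general: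
for every maximal ideal `M` at most one `t ∈ k` has `1 - t x ∈ M` (otherwise `(t - t') x ∈ M`), so there is
`t ∈ k`, `t ≠ 0` with `1 - t x` in no maximal ideal, that is a unit (`k` is infinite, finitely many `M`).  Then
`c (t x) (- (t x)) = 0`, and `c t _ = 0 = c _ t` because `t ^ n = 1` (real values): so `c x (-x) = 0`.
-/

set_option autoImplicit false

noncomputable section

namespace Pool.Agent.MP_b197b4_ntLV

open scoped TensorProduct
open Pool.Agent.MP_b197b4_ntUV

/-- The Steinberg relations: the symbols `a_1 ⊗ … ⊗ a_m` with `a_i + a_(i+1) = 1` for some `i`. -/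
def steinbergRel (R : Type*) [CommRing R] (m : ℕ) : Submodule ℤ (⨂[ℤ] _ : Fin m, Additive Rˣ) :=
  Submodule.span ℤ {x | ∃ (a : Fin m → Rˣ) (i j : Fin m), (j : ℕ) = (i : ℕ) + 1 ∧ (a i : R) + (a j : R) = 1 ∧
    x = PiTensorProduct.tprod ℤ (fun l => Additive.ofMul (a l))}

/-- The Milnor K-group `K_m^M(R)` of a commutative ring `R`: the `m`-th tensor power over `ℤ` of the group of units
`R^*` modulo the symbols `a_1 ⊗ … ⊗ a_m` with `a_i + a_(i+1) = 1` for some `i`. -/
abbrev MilnorK (R : Type*) [CommRing R] (m : ℕ) : Type _ := (⨂[ℤ] _ : Fin m, Additive Rˣ) ⧸ steinbergRel R m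

private lemma LAlt_one_left {R : Type*} [CommRing R] {c : Rˣ → Rˣ → ℝ}
    (h1 : ∀ x y z, c (x * y) z = c x z + c y z) (z : Rˣ) : c 1 z = 0 := by
  have := h1 1 1 z
  rw [mul_one] at this
  linarith

private lemma LAlt_one_right {R : Type*} [CommRing R] {c : Rˣ → Rˣ → ℝ}
    (h2 : ∀ x y z, c x (y * z) = c x y + c x z) (z : Rˣ) : c z 1 = 0 := by
  have := h2 z 1 1
  rw [mul_one] at this
  linarith

private lemma LAlt_inv_left {R : Type*} [CommRing R] {c : Rˣ → Rˣ → ℝ}
    (h1 : ∀ x y z, c (x * y) z = c x z + c y z) (z w : Rˣ) : c z⁻¹ w = - c z w := by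
  have := h1 z z⁻¹ w
  rw [mul_inv_cancel, LAlt_one_left h1] at this
  linarith

private lemma LAlt_inv_right {R : Type*} [CommRing R] {c : Rˣ → Rˣ → ℝ}
    (h2 : ∀ x y z, c x (y * z) = c x y + c x z) (z w : Rˣ) : c z w⁻¹ = - c z w := by
  have := h2 z w w⁻¹
  rw [mul_inv_cancel, LAlt_one_right h2] at this
  linarith

private lemma LAlt_pow_left {R : Type*} [CommRing R] {c : Rˣ → Rˣ → ℝ}
    (h1 : ∀ x y z, c (x * y) z = c x z + c y z) (u z : Rˣ) (n : ℕ) : c (u ^ n) z = n * c u z := by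
  induction n with
  | zero => rw [pow_zero, LAlt_one_left h1, Nat.cast_zero, zero_mul]
  | succ n ih =>
    rw [pow_succ, h1, ih]
    push_cast
    ring

private lemma LAlt_pow_right {R : Type*} [CommRing R] {c : Rˣ → Rˣ → ℝ}
    (h2 : ∀ x y z, c x (y * z) = c x y + c x z) (u z : Rˣ) (n : ℕ) : c z (u ^ n) = n * c z u := by
  induction n with
  | zero => rw [pow_zero, LAlt_one_right h2, Nat.cast_zero, zero_mul]
  | succ n ih =>
    rw [pow_succ, h2, ih]
    push_cast
    ring

private lemma LAlt_neg_unit {R : Type*} [CommRing R] (c : Rˣ → Rˣ → ℝ)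
    (h1 : ∀ x y z, c (x * y) z = c x z + c y z) (h2 : ∀ x y z, c x (y * z) = c x y + c x z)
    (h3 : ∀ x y : Rˣ, (x : R) + y = 1 → c x y = 0) (y v : Rˣ) (hv : (v : R) = 1 - y) :
    c y (-y) = 0 := by
  have e1 : -y = v * (-v * y⁻¹)⁻¹ := by
    rw [eq_mul_inv_iff_mul_eq, neg_mul v y⁻¹, mul_neg, neg_mul, neg_neg, mul_comm v y⁻¹,
      mul_inv_cancel_left]
  have e2 : c y v = 0 := h3 y v (by rw [hv]; ring)
  have e3 : c y⁻¹ (-v * y⁻¹) = 0 := by
    apply h3
    rw [Units.val_mul, Units.val_neg, hv]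
    have h4 : (y : R) * ((y⁻¹ : Rˣ) : R) = 1 := Units.mul_inv y
    linear_combination h4
  rw [LAlt_inv_left h1] at e3
  rw [e1, h2, e2, LAlt_inv_right h2]
  linarith

theorem LAlt_neg {k R : Type*} [Field k] [CommRing R] [Algebra k R] [Infinite k]
    (htors : ∀ x : kˣ, ∃ n : ℕ, 0 < n ∧ x ^ n = 1) (hM : Finite (MaximalSpectrum R))
    (c : Rˣ → Rˣ → ℝ) (h1 : ∀ x y z, c (x * y) z = c x z + c y z)
    (h2 : ∀ x y z, c x (y * z) = c x y + c x z)
    (h3 : ∀ x y : Rˣ, (x : R) + y = 1 → c x y = 0) (x : Rˣ) : c x (-x) = 0 := by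
  classical
  have hfin : (⋃ M : MaximalSpectrum R, {t : k | 1 - algebraMap k R t * (x : R) ∈ M.asIdeal}).Finite := by
    refine Set.finite_iUnion fun M => Set.Subsingleton.finite ?_
    intro t ht t' ht'
    by_contra hne
    have h4 : algebraMap k R (t - t') * (x : R) ∈ M.asIdeal := by
      have h5 := M.asIdeal.sub_mem ht' ht
      have h6 : (1 - algebraMap k R t' * (x : R)) - (1 - algebraMap k R t * (x : R)) =
          algebraMap k R (t - t') * (x : R) := by
        rw [map_sub]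
        ring
      rw [h6] at h5
      exact h5
    have h7 : IsUnit (algebraMap k R (t - t') * (x : R)) :=
      ((isUnit_iff_ne_zero.2 (sub_ne_zero.2 hne)).map (algebraMap k R)).mul x.isUnit
    exact M.isMaximal.ne_top (Ideal.eq_top_of_isUnit_mem _ h4 h7)
  obtain ⟨t, ht⟩ := (hfin.union (Set.finite_singleton (0 : k))).exists_notMem
  rw [Set.mem_union, not_or] at ht
  obtain ⟨ht1, ht2⟩ := ht
  have ht0 : t ≠ 0 := ht2
  have hu : IsUnit (1 - algebraMap k R t * (x : R)) := by
    by_contra hn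
    obtain ⟨I, hI, hmem⟩ := exists_max_ideal_of_mem_nonunits (a := 1 - algebraMap k R t * (x : R)) hn
    exact ht1 (Set.mem_iUnion.2 ⟨⟨I, hI⟩, hmem⟩)
  obtain ⟨v, hv⟩ := hu
  let u : Rˣ := Units.map (algebraMap k R).toMonoidHom (Units.mk0 t ht0)
  have hut : (u : R) = algebraMap k R t := rfl
  obtain ⟨n, hn, hn1⟩ := htors (Units.mk0 t ht0)
  have hun : u ^ n = 1 := by
    rw [← map_pow, hn1, map_one]
  have hn0 : (n : ℝ) ≠ 0 := Nat.cast_ne_zero.2 hn.ne'
  have hl : ∀ z, c u z = 0 := by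
    intro z
    have h := LAlt_pow_left h1 u z n
    rw [hun, LAlt_one_left h1] at h
    exact (mul_eq_zero.1 h.symm).resolve_left hn0
  have hr : ∀ z, c z u = 0 := by
    intro z
    have h := LAlt_pow_right h2 u z n
    rw [hun, LAlt_one_right h2] at h
    exact (mul_eq_zero.1 h.symm).resolve_left hn0
  have h8 := LAlt_neg_unit c h1 h2 h3 (u * x) v (by rw [hv, Units.val_mul, hut])
  rw [← mul_neg, h1, hl, h2, hr, zero_add, zero_add] at h8
  exact h8

private lemma LAlt_antisymm {R : Type*} [CommRing R] (c : Rˣ → Rˣ → ℝ)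
    (h1 : ∀ x y z, c (x * y) z = c x z + c y z)
    (h2 : ∀ x y z, c x (y * z) = c x y + c x z) (hneg : ∀ z, c z (-z) = 0) (x y : Rˣ) :
    c x y = - c y x := by
  have h9 := hneg (x * y)
  rw [h1] at h9
  have h10 : -(x * y) = (-x) * y := by rw [neg_mul]
  have h11 : -(x * y) = x * (-y) := by rw [mul_neg]
  rw [h10, h2, hneg, ← h10, h11, h2, hneg] at h9
  linarith

section alt

variable {R : Type*} [CommRing R]

variable {m : ℕ} (μ : MultilinearMap ℤ (fun _ : Fin m => Additive Rˣ) ℝ)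
  (hneg : ∀ c : Rˣ → Rˣ → ℝ, (∀ x y z, c (x * y) z = c x z + c y z) →
    (∀ x y z, c x (y * z) = c x y + c x z) →
      (∀ x y : Rˣ, (x : R) + y = 1 → c x y = 0) → ∀ x, c x (-x) = 0)
  (hμ : ∀ (a : Fin m → Rˣ) (i j : Fin m), (j : ℕ) = (i : ℕ) + 1 → (a i : R) + (a j : R) = 1 →
    μ (fun l => Additive.ofMul (a l)) = 0)

include hneg hμ

private lemma LAlt_swap (a : Fin m → Additive Rˣ) (i j : Fin m) (hij : (j : ℕ) = (i : ℕ) + 1) :
    μ (a ∘ Equiv.swap i j) = - μ a := by
  classical
  have hne : i ≠ j := by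
    intro h; rw [h] at hij; omega
  let c : Rˣ → Rˣ → ℝ := fun x y =>
    μ (Function.update (Function.update a i (Additive.ofMul x)) j (Additive.ofMul y))
  have h1 : ∀ x y z, c (x * y) z = c x z + c y z := by
    intro x y z
    simp only [c]
    rw [Function.update_comm hne, Function.update_comm hne, Function.update_comm hne, ofMul_mul,
      μ.map_update_add]
  have h2 : ∀ x y z, c x (y * z) = c x y + c x z := by
    intro x y z
    simp only [c]
    rw [ofMul_mul, μ.map_update_add]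
  have h3 : ∀ x y : Rˣ, (x : R) + y = 1 → c x y = 0 := by
    intro x y hxy
    have := hμ (fun l => Additive.toMul (Function.update (Function.update a i (Additive.ofMul x)) j
      (Additive.ofMul y) l)) i j hij (by
        rw [Function.update_self, Function.update_of_ne hne, Function.update_self]
        exact hxy)
    exact this
  have h4 := LAlt_antisymm c h1 h2 (hneg c h1 h2 h3) (Additive.toMul (a j)) (Additive.toMul (a i))
  have h5 : c (Additive.toMul (a i)) (Additive.toMul (a j)) = μ a := by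
    simp only [c]
    congr 1
    ext l
    simp
  have h6 : c (Additive.toMul (a j)) (Additive.toMul (a i)) = μ (a ∘ Equiv.swap i j) := by
    simp only [c]
    congr 1
    funext l
    rw [Function.comp_apply]
    by_cases hlj : l = j
    · subst hlj; simp
    · by_cases hli : l = i
      · subst hli; simp [Function.update_of_ne hlj]
      · rw [Function.update_of_ne hlj, Function.update_of_ne hli, Equiv.swap_apply_of_ne_of_ne hli hlj]
  rw [← h6, h4, h5]

private lemma LAlt_perm (a : Fin m → Additive Rˣ) (σ : Equiv.Perm (Fin m)) :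
    μ (a ∘ σ) = ((Equiv.Perm.sign σ : ℤˣ) : ℤ) * μ a := by
  obtain _ | n := m
  · have : σ = 1 := Subsingleton.elim _ _
    subst this
    simp
  · have hσ : σ ∈ Submonoid.closure (Set.range fun i : Fin n ↦ Equiv.swap i.castSucc i.succ) := by
      rw [Equiv.Perm.mclosure_swap_castSucc_succ]; trivial
    induction hσ using Submonoid.closure_induction generalizing a with
    | mem x hx =>
      obtain ⟨i, rfl⟩ := hx
      rw [LAlt_swap μ hneg hμ a i.castSucc i.succ (by simp)]
      rw [Equiv.Perm.sign_swap (Fin.castSucc_lt_succ).ne]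
      simp
    | one => simp
    | mul x y _ _ hx hy =>
      have : a ∘ ⇑(x * y) = (a ∘ x) ∘ y := rfl
      rw [this, hy, hx, Equiv.Perm.sign_mul]
      push_cast
      ring

private lemma LAlt_alt (a : Fin m → Additive Rˣ) (i j : Fin m) (h : a i = a j) (hij : i ≠ j) : μ a = 0 := by
  have h1 := LAlt_perm μ hneg hμ a (Equiv.swap i j)
  have h2 : a ∘ Equiv.swap i j = a := by
    funext l
    rw [Function.comp_apply]
    by_cases hlj : l = j
    · subst hlj; simp [h]
    · by_cases hli : l = i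
      · subst hli; simp [h]
      · rw [Equiv.swap_apply_of_ne_of_ne hli hlj]
  rw [h2, Equiv.Perm.sign_swap hij] at h1
  simp at h1
  linarith

private lemma LAlt_stb (a : Fin m → Rˣ) (i j : Fin m) (hij : i ≠ j) (h : (a i : R) + (a j : R) = 1) :
    μ (fun l => Additive.ofMul (a l)) = 0 := by
  have hm : 1 < m := by
    have := i.isLt; have := j.isLt
    have : (i : ℕ) ≠ j := fun h => hij (Fin.ext h)
    omega
  let p : Fin m := ⟨0, by omega⟩
  let q : Fin m := ⟨1, hm⟩
  have hpq : p ≠ q := by simp [p, q]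
  obtain ⟨σ, hσp, hσq⟩ : ∃ σ : Equiv.Perm (Fin m), σ p = i ∧ σ q = j := by
    refine ⟨Equiv.swap (Equiv.swap p i q) j * Equiv.swap p i, ?_, ?_⟩
    · rw [Equiv.Perm.mul_apply, Equiv.swap_apply_left, Equiv.swap_apply_of_ne_of_ne _ hij]
      intro h
      have := (Equiv.swap p i).injective (a₁ := p) (a₂ := q) (by rw [Equiv.swap_apply_left]; exact h)
      exact hpq this
    · rw [Equiv.Perm.mul_apply, Equiv.swap_apply_left]
  have h1 := LAlt_perm μ hneg hμ (fun l => Additive.ofMul (a l)) σ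
  have h2 : μ ((fun l => Additive.ofMul (a l)) ∘ σ) = 0 := by
    refine hμ (fun l => a (σ l)) p q (by simp [p, q]) ?_
    rw [hσp, hσq]; exact h
  rw [h2] at h1
  rcases Int.units_eq_one_or (Equiv.Perm.sign σ) with h3 | h3 <;> rw [h3] at h1 <;> simp at h1 <;>
    linarith

end alt

private lemma LAlt_mk {R : Type*} [CommRing R] {m : ℕ} (φ : MilnorK R m →ₗ[ℤ] ℝ) (a : Fin m → Rˣ)
    (i j : Fin m) (hij : (j : ℕ) = (i : ℕ) + 1) (h : (a i : R) + (a j : R) = 1) :
    ((φ ∘ₗ (steinbergRel R m).mkQ).compMultilinearMap (PiTensorProduct.tprod ℤ))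
      (fun l => Additive.ofMul (a l)) = 0 := by
  rw [LinearMap.compMultilinearMap_apply, LinearMap.comp_apply]
  have : (steinbergRel R m).mkQ (PiTensorProduct.tprod ℤ fun l => Additive.ofMul (a l)) = 0 := by
    rw [Submodule.mkQ_apply, Submodule.Quotient.mk_eq_zero]
    exact Submodule.subset_span ⟨a, i, j, hij, h, rfl⟩
  rw [this, map_zero]

/-- if all alternating maps which kill the Steinberg symbols are zero then the Milnor K-group is torsion -/
theorem LAlt_torsion {R : Type*} [CommRing R] {m : ℕ}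
    (hneg : ∀ c : Rˣ → Rˣ → ℝ, (∀ x y z, c (x * y) z = c x z + c y z) → (∀ x y z, c x (y * z) = c x y + c x z) →
      (∀ x y : Rˣ, (x : R) + y = 1 → c x y = 0) → ∀ x, c x (-x) = 0)
    (h : ∀ lam : (Additive Rˣ) [⋀^Fin m]→ₗ[ℤ] ℝ, (∀ (a : Fin m → Rˣ) (i j : Fin m), i ≠ j →
      (a i : R) + (a j : R) = 1 → lam (fun l => Additive.ofMul (a l)) = 0) → ∀ g, lam g = 0)
    (x : MilnorK R m) : ∃ N : ℕ, 0 < N ∧ N • x = 0 := by
  refine torsion_of_dual x ?_
  intro φ
  obtain ⟨y, rfl⟩ := (steinbergRel R m).mkQ_surjective x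
  let lam : (Additive Rˣ) [⋀^Fin m]→ₗ[ℤ] ℝ :=
    { (φ ∘ₗ (steinbergRel R m).mkQ).compMultilinearMap (PiTensorProduct.tprod ℤ) with
      map_eq_zero_of_eq' := fun v i j hv hij =>
        LAlt_alt ((φ ∘ₗ (steinbergRel R m).mkQ).compMultilinearMap (PiTensorProduct.tprod ℤ)) hneg
          (LAlt_mk φ) v i j hv hij }
  have h0 : ∀ g, lam g = 0 := h lam fun a i j hij h1 =>
    LAlt_stb ((φ ∘ₗ (steinbergRel R m).mkQ).compMultilinearMap (PiTensorProduct.tprod ℤ)) hneg
      (LAlt_mk φ) a i j hij h1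
  have h1 : φ ∘ₗ (steinbergRel R m).mkQ = 0 := by
    apply PiTensorProduct.ext
    ext a
    exact h0 a
  exact LinearMap.congr_fun h1 y

end Pool.Agent.MP_b197b4_ntLV
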