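import Pool.Agent.Lib.MP_b197b4_ntLV.LK4
import Pool.Agent.Lib.MP_b197b4_ntLV.LA
import Pool.Agent.Lib.MP_b197b4_ntUV.B5

/-!
# LV, leaf LB5: THEOREM B for a semilocal ring

Copy of ntUV/B5.lean with `GoodL`, `GevL`, `LK4_two`, `LA_rel`, `qL` in place of `Good`, `Gev`, `K4_two`, `A_rel`, `qB`:
`B5_th` becomes `if GoodL P H W X then theta lam .. else 0`, `M = 2 + (20 + 12 P.r) (N+1) 3^(N+1)`; `GoodL` is invariant under
permutations (`B5_good_perm`); on the good event all the families `rtup r i c v` are in `GoodL` (`r` and all `v j a` are units).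
`B5_avg` has `Good` in its statement: copy it with `GoodL` (or with an arbitrary predicate).
-/

set_option autoImplicit false

namespace Pool.Agent.MP_b197b4_ntLV

open scoped BigOperators
open Pool.Agent.MP_b197b4_ntUV

section LB5_aux

variable {K F : Type*} [Field K] [Field F] [Algebra K F] {N : ℕ}

/-- the average over the fibres of the chosen variables -/
theorem LB5_avg (H : Submodule K F) [Fintype H] (Gd : (Fin (N + 1) → H) → Prop)
    (κ A q : ℝ) (hq : 0 < q)
    (g : (Fin (N + 1) → H) → ℝ) (hg0 : ∀ X, 0 ≤ g X) (hg : ∀ X, ¬ Gd X → g X = 0)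
    (r : H) (i : Fin (N + 1)) (c : Fin (N + 1) → Fin 3) (E : (Fin (N + 1) → Fin 3 → H) → Prop)
    [DecidablePred E]
    (hE : ∀ v0, Gd (rtup r i c v0) →
      κ * (Nat.card {v : Fin (N + 1) → Fin 3 → H // (∀ j, j ≠ i → v j (c j) = v0 j (c j)) ∧ E v} : ℝ)
        * q * (Fintype.card H : ℝ) ^ N ≤ A * (Fintype.card H : ℝ) ^ (3 * (N + 1))) :
    κ * ∑ v with E v, g (rtup r i c v) ≤
      A / q * (Fintype.card H : ℝ) ^ (2 * N + 3) * ∑ z : Fin N → H, g (Fin.cons r z) := by
  classical
  have hH : (0 : ℝ) < (Fintype.card H : ℝ) := by exact_mod_cast Fintype.card_pos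
  let tp : (Fin (N + 1) → Fin 3 → H) → (Fin N → H) :=
    fun v j => v (i.succAbove j) (c (i.succAbove j))
  have h1 : ∑ v with E v, g (rtup r i c v) =
      ∑ z : Fin N → H, ((Finset.univ.filter E).filter (fun v => tp v = z)).card *
        g (Fin.cons r z) := by
    rw [← Finset.sum_fiberwise (Finset.univ.filter E) tp]
    refine Finset.sum_congr rfl fun z _ => ?_
    rw [← nsmul_eq_mul, ← Finset.sum_const]
    refine Finset.sum_congr rfl fun v hv => ?_
    rw [Finset.mem_filter] at hv
    rw [← hv.2]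
    rfl
  rw [h1, Finset.mul_sum, Finset.mul_sum]
  refine Finset.sum_le_sum fun z _ => ?_
  rw [← mul_assoc]
  by_cases hz : Gd (Fin.cons r z : Fin (N + 1) → H)
  · refine mul_le_mul_of_nonneg_right ?_ (hg0 _)
    let v0 : Fin (N + 1) → Fin 3 → H := fun j _ => (Fin.insertNth i (0 : H) z : Fin (N + 1) → H) j
    have hv0 : tp v0 = z := by
      funext j
      simp only [tp, v0]
      rw [Fin.insertNth_apply_succAbove]
    have hgood : Gd (rtup r i c v0) := by
      have : rtup r i c v0 = (Fin.cons r z : Fin (N + 1) → H) := by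
        rw [← hv0]
        rfl
      rw [this]
      exact hz
    have h2 := hE v0 hgood
    have h3 : Nat.card {v : Fin (N + 1) → Fin 3 → H //
        (∀ j, j ≠ i → v j (c j) = v0 j (c j)) ∧ E v} =
        ((Finset.univ.filter E).filter (fun v => tp v = z)).card := by
      rw [Nat.card_eq_fintype_card, Fintype.card_subtype, Finset.filter_filter]
      congr 1
      ext v
      simp only [Finset.mem_filter, Finset.mem_univ, true_and]
      constructor
      · rintro ⟨h, hv⟩
        refine ⟨hv, ?_⟩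
        rw [← hv0]
        funext j
        exact h _ (Fin.succAbove_ne i j)
      · rintro ⟨hv, h⟩
        refine ⟨fun j hj => ?_, hv⟩
        obtain ⟨k, rfl⟩ := Fin.exists_succAbove_eq hj
        have h4 := congrFun (h.trans hv0.symm) k
        exact h4
    rw [h3] at h2
    have h5 : (Fintype.card H : ℝ) ^ (3 * (N + 1)) =
        (Fintype.card H : ℝ) ^ (2 * N + 3) * (Fintype.card H : ℝ) ^ N := by
      rw [← pow_add]
      congr 1
      ring
    rw [h5, ← mul_assoc] at h2
    have h6 := le_of_mul_le_mul_right h2 (pow_pos hH N)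
    rw [div_mul_eq_mul_div, le_div_iff₀ hq]
    exact h6
  · rw [hg _ hz, mul_zero, mul_zero]

open Classical in
/-- the form `theta lam` on good families -/
noncomputable def LB5_th (P : SL K F) (H W : Submodule K F) (lam : (Additive Fˣ) [⋀^Fin N]→ₗ[ℤ] ℝ)
    (X : Fin (N + 1) → H) : ℝ :=
  if GoodL P H W X then theta lam (fun j => (X j : F)) else 0

theorem LB5_good_perm_iff (P : SL K F) (H W : Submodule K F) {n : ℕ} (X : Fin n → H) (σ : Equiv.Perm (Fin n)) :
    GoodL P H W (X ∘ σ) ↔ GoodL P H W X := by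
  unfold GoodL
  rw [B5_good_perm_iff]
  refine and_congr_left fun _ => ⟨fun h j => ?_, fun h j => h (σ j)⟩
  have := h (σ.symm j)
  simpa using this

theorem LB5_alt (P : SL K F) (H W : Submodule K F) (lam : (Additive Fˣ) [⋀^Fin N]→ₗ[ℤ] ℝ) :
    Alt (LB5_th P H W lam) := by
  intro z i j hij
  simp only [LB5_th]
  by_cases h : GoodL P H W z
  · rw [if_pos h, if_pos ((LB5_good_perm_iff P H W z _).mpr h)]
    have h1 := A_theta_perm lam (fun j => (z j : F)) (fun j => by
      intro h0
      exact (h.1 j).ne h0) (Equiv.swap i j)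
    rw [Equiv.Perm.sign_swap hij] at h1
    simp only [Units.val_neg, Units.val_one, Int.cast_neg, Int.cast_one, neg_mul, one_mul] at h1
    exact h1
  · rw [if_neg h, if_neg (fun h' => h ((LB5_good_perm_iff P H W z _).mp h')), neg_zero]

/-- the relation on the good event -/
theorem LB5_rel (P : SL K F) (H W : Submodule K F) (lam : (Additive Fˣ) [⋀^Fin N]→ₗ[ℤ] ℝ) (hS : StU P lam)
    (r : H) (v : Fin (N + 1) → Fin 3 → H) (hO : fsum v = 0) (hG : GevL P H W r v) :
    ∑ s : Fin (N + 1) × (Fin (N + 1) → Fin 3), (-1 : ℝ) ^ (s.1 : ℕ) *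
      LB5_th P H W lam (rtup r s.1 s.2 v) = 0 := by
  obtain ⟨hru, h1, -, h3', hch⟩ := hG
  have h3 : ∀ i c, GoodL P H W (rtup r i c v) := by
    intro i c
    refine ⟨fun j => ?_, h3' i c⟩
    refine Fin.cases ?_ (fun j => ?_) j
    · exact hru
    · exact h1 _ _
  have hr : (r : F) ≠ 0 := hru.ne
  have hv : ∀ j a, (v j a : F) ≠ 0 := fun j a => (h1 j a).ne
  rw [Fintype.sum_prod_type]
  have h4 : ∀ i : Fin (N + 1), ∑ c : Fin (N + 1) → Fin 3, (-1 : ℝ) ^ (i : ℕ) *
      LB5_th P H W lam (rtup r i c v) = 3 * ((-1 : ℝ) ^ (i : ℕ) *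
        ev lam (fun j : Fin N => (∏ a, (v (i.succAbove j) a : F)) / (r : F) ^ 3)) := by
    intro i
    have h5 : ∀ c : Fin (N + 1) → Fin 3, LB5_th P H W lam (rtup r i c v) =
        ev lam (fun j : Fin N => (v (i.succAbove j) (c (i.succAbove j)) : F) / (r : F)) := by
      intro c
      simp only [LB5_th]
      rw [if_pos (h3 i c)]
      rfl
    simp only [h5]
    rw [← Finset.mul_sum, B5_sum_remove i (fun c' : Fin N → Fin 3 =>
      ev lam (fun j : Fin N => (v (i.succAbove j) (c' j) : F) / (r : F)))]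
    rw [A_prod lam (fun j a => (v (i.succAbove j) a : F)) (fun j a => hv _ a) r hr]
    ring
  simp only [h4]
  rw [← Finset.mul_sum, LA_rel P lam hS (fun j => ∏ a, (v j a : F))
    (fun j => IsU.prod _ _ fun a _ => h1 j a) hO hch _ (pow_ne_zero 3 hr), mul_zero]

end LB5_aux

theorem LB5_main {K F : Type*} [Field K] [Fintype K] [Field F] [Algebra K F] {N : ℕ} (P : SL K F)
    (H W : Submodule K F) [Finite H] [Finite W] (hHS : H ≤ P.S)
    (hW : ∀ a b c : H, (a : F) * (b : F) * (c : F) ∈ W)
    (hq : qL P.r N (Module.finrank K W) ≤ Fintype.card K)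
    (lam : (Additive Fˣ) [⋀^Fin N]→ₗ[ℤ] ℝ) (hS : StU P lam)
    (X : Fin (N + 1) → H) (hX : GoodL P H W X) :
    ev lam (fun j => (X j.succ : F) / (X 0 : F)) = 0 := by
  classical
  have : Fintype H := Fintype.ofFinite H
  have hfr : ∀ a b : Fin 3, ∃ c : Fin 3, c ≠ a ∧ c ≠ b := by decide
  choose fr hfr1 hfr2 using hfr
  set w : ℕ := Module.finrank K W with hw
  set q : ℝ := (Fintype.card K : ℝ) with hqdef
  have hq0 : (0 : ℝ) < q := by
    rw [hqdef]
    exact_mod_cast Fintype.card_pos
  set M : ℕ := 2 + (20 + 12 * P.r) * (N + 1) * 3 ^ (N + 1) with hM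
  set L : (Fin (N + 1) → H) → ℝ := LB5_th P H W lam with hL
  have hW0 : (0 : ℝ) < (Nat.card W : ℝ) := by
    have : 0 < Nat.card W := Nat.card_pos
    exact_mod_cast this
  have hcard : Fintype.card (Fin (N + 1) × (Fin (N + 1) → Fin 3)) = (N + 1) * 3 ^ (N + 1) := by
    simp
  have huniv : ∀ (i1 i2 : Fintype (Fin (N + 1) → Fin 3 → H))
      (f : (Fin (N + 1) → Fin 3 → H) → ℝ),
      @Finset.sum _ _ _ (@Finset.univ _ i1) f = @Finset.sum _ _ _ (@Finset.univ _ i2) f := by
    intro i1 i2 f
    rw [Subsingleton.elim i1 i2]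
  have hmain : ∀ Y, L Y = 0 := by
    refine B4_main L (LB5_alt P H W lam)
      (2 * (((N + 1) * 3 ^ (N + 1) : ℕ) : ℝ) ^ 2 * ((M : ℝ) * w / q)) ?_ ?_
    · -- size of q
      have h1 : ((qL P.r N w : ℕ) : ℝ) ≤ q := by
        rw [hqdef]
        exact_mod_cast hq
      have h2 : (2 * (N + 1) * ((N + 1) * 3 ^ (N + 1)) ^ 2 * M * w : ℝ) < q := by
        have : ((qL P.r N w : ℕ) : ℝ) =
            (2 * (N + 1) * ((N + 1) * 3 ^ (N + 1)) ^ 2 * M * w : ℝ) + 1 := by
          rw [qL, hM]
          push_cast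
          ring
        linarith
      have h3 : 2 * (((N + 1) * 3 ^ (N + 1) : ℕ) : ℝ) ^ 2 * ((M : ℝ) * w / q) * (N + 1) =
          (2 * (N + 1) * ((N + 1) * 3 ^ (N + 1)) ^ 2 * M * w : ℝ) / q := by
        push_cast
        ring
      rw [h3, div_lt_iff₀ hq0]
      linarith
    · intro r
      -- curry
      have hcur : ∑ v : Fin (N + 1) × Fin 3 → H, (Aop (fun z => L (Fin.cons r z)) v) ^ 2 =
          ∑ v : Fin (N + 1) → Fin 3 → H,
            (∑ s : Fin (N + 1) × (Fin (N + 1) → Fin 3), (-1 : ℝ) ^ (s.1 : ℕ) *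
              L (rtup r s.1 s.2 v)) ^ 2 := by
        refine Fintype.sum_equiv (Equiv.curry (Fin (N + 1)) (Fin 3) H) _ _ fun v => ?_
        rw [Fintype.sum_prod_type]
        rfl
      rw [hcur]
      set Q : ℝ := ∑ z : Fin N → H, L (Fin.cons r z) ^ 2 with hQ
      set D : ℝ := (M : ℝ) * w / q * (Fintype.card H : ℝ) ^ (2 * N + 3) * Q with hD
      have hg0 : ∀ X, 0 ≤ L X ^ 2 := fun X => sq_nonneg _
      have hgb : ∀ X, ¬ GoodL P H W X → L X ^ 2 = 0 := by
        intro X hX
        rw [hL]
        simp only [LB5_th]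
        rw [if_neg hX]
        norm_num
      have hHp : (0 : ℝ) ≤ (Fintype.card H : ℝ) ^ (3 * (N + 1)) := by positivity
      have hwp : (0 : ℝ) ≤ (w : ℝ) := Nat.cast_nonneg _
      -- the part where the rows do not cover
      have hP2 : ∀ (i : Fin (N + 1)) (c e : Fin (N + 1) → Fin 3)
          (E : (Fin (N + 1) → Fin 3 → H) → Prop) [DecidablePred E]
          (_ : ∀ v, E v ↔ ¬ Cov H W Finset.univ (rest e v)),
          ∑ v with E v, L (rtup r i c v) ^ 2 ≤ D := by
        intro i c e E _ hE
        have h1 := LB5_avg H (GoodL P H W) 1 ((M : ℝ) * w) q hq0 (fun X => L X ^ 2) hg0 hgb r i c E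
          (fun v0 hv0 => by
            have h2 := K1_one H W hW r i c e v0 hv0.2
            have h3 : Nat.card {v : Fin (N + 1) → Fin 3 → H //
                (∀ j, j ≠ i → v j (c j) = v0 j (c j)) ∧ E v} =
                Nat.card {v : Fin (N + 1) → Fin 3 → H //
                (∀ j, j ≠ i → v j (c j) = v0 j (c j)) ∧ ¬ Cov H W Finset.univ (rest e v)} := by
              refine Nat.card_congr (Equiv.subtypeEquivRight fun v => ?_)
              rw [hE v]
            rw [h3, one_mul]
            have h4 : ((Nat.card {v : Fin (N + 1) → Fin 3 → H //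
                (∀ j, j ≠ i → v j (c j) = v0 j (c j)) ∧ ¬ Cov H W Finset.univ (rest e v)} : ℕ) : ℝ) *
                q * (Fintype.card H : ℝ) ^ N ≤ 2 * w * (Fintype.card H : ℝ) ^ (3 * (N + 1)) := by
              rw [hqdef]
              exact_mod_cast h2
            refine h4.trans ?_
            refine mul_le_mul_of_nonneg_right ?_ hHp
            refine mul_le_mul_of_nonneg_right ?_ hwp
            rw [hM]
            push_cast
            have : (0 : ℝ) ≤ (20 + 12 * P.r) * (N + 1) * 3 ^ (N + 1) := by positivity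
            linarith)
        rw [one_mul] at h1
        exact h1
      -- the bad part
      have hP3 : ∀ (i : Fin (N + 1)) (c e : Fin (N + 1) → Fin 3) (_ : ∀ j, e j ≠ c j)
          (E : (Fin (N + 1) → Fin 3 → H) → Prop) [DecidablePred E]
          (_ : ∀ v, E v ↔ (fsum v = 0 ∧ Cov H W Finset.univ (rest e v) ∧ ¬ GevL P H W r v)),
          (Nat.card W : ℝ) * ∑ v with E v, L (rtup r i c v) ^ 2 ≤ D := by
        intro i c e he E _ hE
        refine LB5_avg H (GoodL P H W) (Nat.card W : ℝ) ((M : ℝ) * w) q hq0 (fun X => L X ^ 2) hg0 hgb r i c E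
          (fun v0 hv0 => ?_)
        have h2 := LK4_two P H W hHS hW r i c e he v0 hv0
        have h3 : Nat.card {v : Fin (N + 1) → Fin 3 → H //
            (∀ j, j ≠ i → v j (c j) = v0 j (c j)) ∧ E v} =
            Nat.card {v : Fin (N + 1) → Fin 3 → H //
            (∀ j, j ≠ i → v j (c j) = v0 j (c j)) ∧ fsum v = 0 ∧
              Cov H W Finset.univ (rest e v) ∧ ¬ GevL P H W r v} := by
          refine Nat.card_congr (Equiv.subtypeEquivRight fun v => ?_)
          rw [hE v]
        rw [h3]
        have h4 : (Nat.card W : ℝ) * ((Nat.card {v : Fin (N + 1) → Fin 3 → H //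
            (∀ j, j ≠ i → v j (c j) = v0 j (c j)) ∧ fsum v = 0 ∧
              Cov H W Finset.univ (rest e v) ∧ ¬ GevL P H W r v} : ℕ) : ℝ) *
            q * (Fintype.card H : ℝ) ^ N ≤
            ((20 + 12 * P.r) * (N + 1) * 3 ^ (N + 1)) * w * (Fintype.card H : ℝ) ^ (3 * (N + 1)) := by
          rw [hqdef]
          exact_mod_cast h2
        refine h4.trans ?_
        refine mul_le_mul_of_nonneg_right ?_ hHp
        refine mul_le_mul_of_nonneg_right ?_ hwp
        rw [hM]
        push_cast
        linarith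
      have hB := B3_main (Ω := Fin (N + 1) → Fin 3 → H)
        (S := Fin (N + 1) × (Fin (N + 1) → Fin 3))
        (fun s v => L (rtup r s.1 s.2 v)) (fun s => (-1 : ℝ) ^ (s.1 : ℕ))
        (fun s => by
          rw [abs_pow, abs_neg, abs_one, one_pow])
        (fun s t v => Cov H W Finset.univ (rest (fun j => fr (s.2 j) (t.2 j)) v))
        (fun v => GevL P H W r v) (fun v => fsum v = 0) (Nat.card W : ℝ) D hW0
        (fun s t v hG => hG.2.2.1 _)
        (fun s t => by
          have h1 := M_master H W hW (fun j => fr (s.2 j) (t.2 j)) Finset.univ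
            (fun v => L (rtup r s.1 s.2 v) * L (rtup r t.1 t.2 v))
            (fun v v' h => by
              have h2 : rtup r s.1 s.2 v = rtup r s.1 s.2 v' := by
                simp only [rtup]
                congr 1
                funext j
                exact h _ _ (fun _ => (hfr1 _ _).symm)
              have h3 : rtup r t.1 t.2 v = rtup r t.1 t.2 v' := by
                simp only [rtup]
                congr 1
                funext j
                exact h _ _ (fun _ => (hfr2 _ _).symm)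
              rw [h2, h3])
          rw [Finset.sum_filter, Finset.sum_filter]
          exact (congrArg _ (huniv _ _ _)).trans (h1.trans (huniv _ _ _)))
        (fun s t => ⟨hP2 s.1 s.2 _ _ fun v => Iff.rfl, hP2 t.1 t.2 _ _ fun v => Iff.rfl⟩)
        (fun s t => ⟨hP3 s.1 s.2 _ (fun j => hfr1 _ _) _ fun v => Iff.rfl,
          hP3 t.1 t.2 _ (fun j => hfr2 _ _) _ fun v => Iff.rfl⟩)
        (fun v hO hG => LB5_rel P H W lam hS r v hO hG)
      refine hB.trans (le_of_eq ?_)
      rw [hcard, hD]
      ring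
  have h1 := hmain X
  rw [hL] at h1
  simp only [LB5_th] at h1
  rw [if_pos hX] at h1
  exact h1

end Pool.Agent.MP_b197b4_ntLV
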