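import Pool.Agent.Lib.MP_b197b4_ntUV.EGP

/-!
# LV, leaf LGP: general position, avoiding finitely many subspaces

Copy of ntUV/EGP.lean with one more condition: the elements `s i` are not in the subspaces `L l` (`l : Fin q`), none of which contains
a `W i`.
-/

set_option autoImplicit false
set_option linter.unusedSectionVars false

noncomputable section

namespace Pool.Agent.MP_b197b4_ntLV

open scoped BigOperators
open Pool.Agent.MP_b197b4_ntUV

variable {k F : Type} [Field k] [Field F] [Algebra k F]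

section

open Module

variable {G : Type} (W : G → Submodule k F) [hW : ∀ i, FiniteDimensional k (W i)]

/-- the element `l` of the basis of `W i` -/
private def LGP_b (i : G) (l : Fin (finrank k (W i))) : F := (finBasis k (W i) l : F)

private theorem LGP_b_mem (i : G) (l : Fin (finrank k (W i))) : LGP_b W i l ∈ W i :=
  (finBasis k (W i) l).2

private theorem LGP_b_ne (i : G) (l : Fin (finrank k (W i))) : LGP_b W i l ≠ 0 := fun h =>
  (finBasis k (W i)).ne_zero l (Subtype.ext h)

/-- the elements are combinations of the basis -/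
private theorem LGP_sum (i : G) (w : W i) :
    (w : F) = ∑ l, (finBasis k (W i)).repr w l • LGP_b W i l := by
  have h1 := congrArg Subtype.val ((finBasis k (W i)).sum_repr w)
  rw [← h1, Submodule.coe_sum]
  rfl

variable [Finite G]

/-- the algebra of the chart `x` -/
private def LGP_A (x : ∀ i, Fin (finrank k (W i))) : Subalgebra k F :=
  Algebra.adjoin k (Set.range fun p : Σ i : G, Fin (finrank k (W i)) =>
    LGP_b W p.1 p.2 / LGP_b W p.1 (x p.1))

private theorem LGP_noeth (x : ∀ i, Fin (finrank k (W i))) : IsNoetherianRing (LGP_A W x) := by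
  have h1 : Algebra.FiniteType k (LGP_A W x) := Algebra.FiniteType.adjoin_of_finite (Set.finite_range _)
  exact Algebra.FiniteType.isNoetherianRing k _

private theorem LGP_mem (x : ∀ i, Fin (finrank k (W i))) (r : G) (w : W r) :
    (w : F) / LGP_b W r (x r) ∈ LGP_A W x := by
  rw [LGP_sum W r w, Finset.sum_div]
  refine Subalgebra.sum_mem _ fun l _ => ?_
  rw [smul_div_assoc]
  have h1 : LGP_b W r l / LGP_b W r (x r) ∈ LGP_A W x := Algebra.subset_adjoin ⟨⟨r, l⟩, rfl⟩
  exact Subalgebra.smul_mem _ h1 _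

/-- division by the element of the basis -/
private def LGP_q (x : ∀ i, Fin (finrank k (W i))) (r : G) : W r →ₗ[k] LGP_A W x where
  toFun w := ⟨(w : F) / LGP_b W r (x r), LGP_mem W x r w⟩
  map_add' _ _ := Subtype.ext (add_div _ _ _)
  map_smul' c _ := Subtype.ext (smul_div_assoc c _ _)

private theorem LGP_q_self (x : ∀ i, Fin (finrank k (W i))) (r : G) :
    LGP_q W x r ⟨LGP_b W r (x r), LGP_b_mem W r (x r)⟩ = 1 :=
  Subtype.ext (div_self (LGP_b_ne W r (x r)))

/-- The property of the elements `s i`, `i ∈ S`. -/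
private def LGP_Phi (n : ℕ) (S : Finset G) (s : ∀ i, W i) : Prop :=
  ∀ (x : ∀ i, Fin (finrank k (W i))) (J : Finset G), J ⊆ S → ∀ P : Ideal (LGP_A W x), P.IsPrime →
    (∀ j ∈ J, LGP_q W x j (s j) ∈ P) → ∀ m, m + J.card = n + 1 → TdLt k (LGP_A W x ⧸ P) m

private theorem LGP_base {n : ℕ} (htd : TdLt k F (n + 1)) (s : ∀ i, W i) :
    LGP_Phi W n ∅ s := by
  intro x J hJ P _ _ m hm
  rw [Finset.subset_empty.1 hJ, Finset.card_empty, add_zero] at hm
  subst hm
  exact (htd.of_injective (LGP_A W x).val Subtype.val_injective).quotient P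

/-- A vector of `W r` outside finitely many proper subspaces. -/
private theorem LGP_choose [Infinite k] (h0 : ∀ i, W i ≠ ⊥) {q : ℕ} (L : Fin q → Submodule k F)
    (hL : ∀ i l, ¬ W i ≤ L l) (r : G) (s : ∀ i, W i) :
    ∃ w : W r, (w ≠ 0 ∧ ∀ l, (w : F) ∉ L l) ∧ ∀ (x : ∀ i, Fin (finrank k (W i))) (J : Finset G),
      ∀ P ∈ (Ideal.span ((fun j => LGP_q W x j (s j)) '' (J : Set G))).minimalPrimes,
        LGP_q W x r w ∉ P := by
  classical
  have hfin : ∀ i, Finite (Fin (finrank k (W i))) := fun i => inferInstance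
  let T : Set (Submodule k (W r)) := ({⊥} ∪ Set.range fun l => (L l).comap (W r).subtype) ∪ ⋃ (x : ∀ i, Fin (finrank k (W i))) (J : Finset G),
    (fun P : Ideal (LGP_A W x) => (P.restrictScalars k).comap (LGP_q W x r)) ''
      (Ideal.span ((fun j => LGP_q W x j (s j)) '' (J : Set G))).minimalPrimes
  have hT : T.Finite := by
    refine ((Set.finite_singleton _).union (Set.finite_range _)).union (Set.finite_iUnion fun x => Set.finite_iUnion fun J => ?_)
    have := LGP_noeth W x
    exact (Ideal.finite_minimalPrimes_of_isNoetherianRing _ _).image _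
  have hne : Nontrivial (W r) := (Submodule.nontrivial_iff_ne_bot).2 (h0 r)
  have htop : (⊤ : Submodule k (W r)) ∉ hT.toFinset := by
    rw [Set.Finite.mem_toFinset]
    rintro ((h | h) | h)
    · exact bot_ne_top (α := Submodule k (W r)) (Set.mem_singleton_iff.1 h).symm
    · obtain ⟨l, hl⟩ := h
      refine hL r l fun w hw => ?_
      have h1 : (⟨w, hw⟩ : W r) ∈ (L l).comap (W r).subtype := by
        rw [show (L l).comap (W r).subtype = ⊤ from hl]
        exact Submodule.mem_top
      exact h1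
    · obtain ⟨x, h⟩ := Set.mem_iUnion.1 h
      obtain ⟨J, h⟩ := Set.mem_iUnion.1 h
      obtain ⟨P, hP, h⟩ := h
      have hPp : P.IsPrime := hP.1.1
      have h1 : (⟨LGP_b W r (x r), LGP_b_mem W r (x r)⟩ : W r) ∈
          (P.restrictScalars k).comap (LGP_q W x r) := by
        rw [show (P.restrictScalars k).comap (LGP_q W x r) = ⊤ from h]
        exact Submodule.mem_top
      have h2 : LGP_q W x r ⟨LGP_b W r (x r), LGP_b_mem W r (x r)⟩ ∈ P := h1
      rw [LGP_q_self] at h2
      exact hPp.ne_top ((Ideal.eq_top_iff_one P).2 h2)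
  have hcov := Subspace.biUnion_ne_univ_of_top_notMem htop
  obtain ⟨w, hw⟩ := (Set.ne_univ_iff_exists_notMem _).1 hcov
  have hw' : ∀ p ∈ T, w ∉ p := fun p hp hwp =>
    hw (Set.mem_iUnion₂.2 ⟨p, (Set.Finite.mem_toFinset _).2 hp, hwp⟩)
  refine ⟨w, ⟨fun h => hw' ⊥ (Or.inl (Or.inl rfl)) ?_, fun l h => hw' _ (Or.inl (Or.inr ⟨l, rfl⟩)) h⟩,
    fun x J P hP h => ?_⟩
  · rw [h]
    exact Submodule.zero_mem _
  · exact hw' _ (Or.inr (Set.mem_iUnion.2 ⟨x, Set.mem_iUnion.2 ⟨J, P, hP, rfl⟩⟩)) h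

private theorem LGP_step [Infinite k] [DecidableEq G] (h0 : ∀ i, W i ≠ ⊥) {q : ℕ} (L : Fin q → Submodule k F)
    (hL : ∀ i l, ¬ W i ≤ L l) {n : ℕ} {S : Finset G}
    {r : G} (hr : r ∉ S) {s : ∀ i, W i} (hs : ∀ i, s i ≠ 0 ∧ ∀ l, (s i : F) ∉ L l) (hPhi : LGP_Phi W n S s) :
    ∃ s' : ∀ i, W i, (∀ i, s' i ≠ 0 ∧ ∀ l, (s' i : F) ∉ L l) ∧ LGP_Phi W n (insert r S) s' := by
  obtain ⟨w, hw0, hw⟩ := LGP_choose W h0 L hL r s
  refine ⟨Function.update s r w, fun i => ?_, ?_⟩
  · by_cases h : i = r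
    · subst h
      rw [Function.update_self]
      exact hw0
    · rw [Function.update_of_ne h]
      exact hs i
  · intro x J hJ P hP hmem m hm
    by_cases hrJ : r ∈ J
    · -- the prime is not minimal over the others
      have hsub : J.erase r ⊆ S := by
        intro j hj
        obtain ⟨h1, h2⟩ := Finset.mem_erase.1 hj
        exact (Finset.mem_insert.1 (hJ h2)).resolve_left h1
      have hle : Ideal.span ((fun j => LGP_q W x j (s j)) '' ((J.erase r : Finset G) : Set G)) ≤ P := by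
        rw [Ideal.span_le]
        rintro _ ⟨j, hj, rfl⟩
        obtain ⟨h1, h2⟩ := Finset.mem_erase.1 (Finset.mem_coe.1 hj)
        have h3 := hmem j h2
        rw [Function.update_of_ne h1] at h3
        exact h3
      obtain ⟨P', hP', hPP⟩ := Ideal.exists_minimalPrimes_le hle
      have hP'p : P'.IsPrime := hP'.1.1
      have hin : ∀ j ∈ J.erase r, LGP_q W x j (s j) ∈ P' := fun j hj =>
        hP'.1.2 (Ideal.subset_span ⟨j, hj, rfl⟩)
      have hcard : m + 1 + (J.erase r).card = n + 1 := by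
        rw [Finset.card_erase_of_mem hrJ]
        have h1 : 0 < J.card := Finset.card_pos.2 ⟨r, hrJ⟩
        omega
      have htd := hPhi x (J.erase r) hsub P' hP'p hin (m + 1) hcard
      have hlt : P' < P := by
        refine lt_of_le_of_ne hPP fun h => ?_
        have h1 := hmem r hrJ
        rw [Function.update_self, ← h] at h1
        exact hw x (J.erase r) P' hP' h1
      exact td_drop hP'p hlt htd
    · refine hPhi x J (fun j hj => ?_) P hP (fun j hj => ?_) m hm
      · exact (Finset.mem_insert.1 (hJ hj)).resolve_left fun h => hrJ (by rw [← h]; exact hj)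
      · have h3 := hmem j hj
        rw [Function.update_of_ne (fun h => hrJ (by rw [← h]; exact hj))] at h3
        exact h3

private theorem LGP_all [Infinite k] (h0 : ∀ i, W i ≠ ⊥) {q : ℕ} (L : Fin q → Submodule k F)
    (hL : ∀ i l, ¬ W i ≤ L l) {n : ℕ} (htd : TdLt k F (n + 1))
    (S : Finset G) : ∃ s : ∀ i, W i, (∀ i, s i ≠ 0 ∧ ∀ l, (s i : F) ∉ L l) ∧ LGP_Phi W n S s := by
  classical
  induction S using Finset.induction_on with
  | empty =>
    have h1 : ∀ i, ∃ w : W i, w ≠ 0 ∧ ∀ l, (w : F) ∉ L l := fun i => by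
      obtain ⟨w, hw, _⟩ := LGP_choose W h0 L hL i (fun _ => 0)
      exact ⟨w, hw⟩
    choose s hs using h1
    exact ⟨s, hs, LGP_base W htd s⟩
  | insert r S hr ih =>
    obtain ⟨s, hs, hPhi⟩ := ih
    exact LGP_step W h0 L hL hr hs hPhi

/-- The chart of a point. -/
private theorem LGP_chart (h0 : ∀ i, W i ≠ ⊥) {O : ValuationSubring F} (hO : IsPt k O) :
    ∃ x : ∀ i, Fin (finrank k (W i)), (∀ i, ∀ w : W i, O.valuation (w : F) ≤
      O.valuation (LGP_b W i (x i))) ∧ ∀ a ∈ LGP_A W x, a ∈ O := by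
  have h1 : ∀ i, ∃ l : Fin (finrank k (W i)), ∀ l', O.valuation (LGP_b W i l') ≤
      O.valuation (LGP_b W i l) := by
    intro i
    have : Nontrivial (W i) := (Submodule.nontrivial_iff_ne_bot).2 (h0 i)
    have : 0 < finrank k (W i) := finrank_pos
    have : Nonempty (Fin (finrank k (W i))) := ⟨⟨0, this⟩⟩
    exact Finite.exists_max _
  choose x hx using h1
  have h2 : ∀ i, ∀ w : W i, O.valuation (w : F) ≤ O.valuation (LGP_b W i (x i)) := by
    intro i w
    rw [LGP_sum W i w]
    refine Valuation.map_sum_le _ fun l _ => ?_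
    rw [Algebra.smul_def, map_mul]
    have h3 : O.valuation (algebraMap k F ((finBasis k (W i)).repr w l)) ≤ 1 :=
      (O.valuation_le_one_iff _).2 (hO _)
    calc _ ≤ 1 * O.valuation (LGP_b W i l) := mul_le_mul_left h3 _
      _ ≤ _ := by
        rw [one_mul]
        exact hx i l
  refine ⟨x, h2, fun a ha => ?_⟩
  let B : Subalgebra k F := { O.toSubring with algebraMap_mem' := hO }
  have h4 : LGP_A W x ≤ B := by
    refine Algebra.adjoin_le ?_
    rintro _ ⟨⟨i, l⟩, rfl⟩
    show _ ∈ O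
    rw [← O.valuation_le_one_iff, map_div₀]
    have h5 : O.valuation (LGP_b W i (x i)) ≠ 0 := (Valuation.ne_zero_iff _).2 (LGP_b_ne W i (x i))
    rw [div_le_iff₀ (zero_lt_iff.2 h5), one_mul]
    exact hx i l
  exact h4 ha

end

theorem LGP_general_position [Infinite k] {n : ℕ} (htd : TdLt k F (n + 1)) {G : Type} [Finite G]
    (W : G → Submodule k F) (hW : ∀ i, FiniteDimensional k (W i)) (h0 : ∀ i, W i ≠ ⊥)
    {q : ℕ} (L : Fin q → Submodule k F) (hL : ∀ i l, ¬ W i ≤ L l) :
    ∃ s : G → F, (∀ i, s i ∈ W i) ∧ (∀ i, s i ≠ 0) ∧ (∀ i l, s i ∉ L l) ∧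
      ∀ O : ValuationSubring F, IsPt k O → {i | Van O (W i) (s i)}.ncard ≤ n := by
  classical
  have := Fintype.ofFinite G
  obtain ⟨s, hs, hPhi⟩ := LGP_all W h0 L hL htd (Finset.univ : Finset G)
  refine ⟨fun i => (s i : F), fun i => (s i).2, fun i h => (hs i).1 (Subtype.ext h), fun i l => (hs i).2 l,
    fun O hO => ?_⟩
  obtain ⟨x, hx, hA⟩ := LGP_chart W h0 hO
  by_contra hcon
  rw [not_le, ← Nat.succ_le_iff] at hcon
  have hfin : {i | Van O (W i) (s i : F)}.Finite := Set.toFinite _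
  rw [Set.ncard_eq_toFinset_card _ hfin] at hcon
  obtain ⟨J, hJ, hcard⟩ := Finset.exists_subset_card_eq hcon
  let φ : LGP_A W x →+* O :=
    { toFun := fun a => ⟨a.1, hA a.1 a.2⟩
      map_one' := rfl
      map_mul' := fun _ _ => rfl
      map_zero' := rfl
      map_add' := fun _ _ => rfl }
  let P : Ideal (LGP_A W x) := (IsLocalRing.maximalIdeal O).comap φ
  have hP : P.IsPrime := Ideal.IsPrime.comap φ
  refine not_tdLt_zero (hPhi x J (Finset.subset_univ _) P hP (fun j hj => ?_) 0 (by omega))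
  obtain ⟨w, hw, hlt⟩ : Van O (W j) (s j : F) := (Set.Finite.mem_toFinset hfin).1 (hJ hj)
  show φ (LGP_q W x j (s j)) ∈ IsLocalRing.maximalIdeal O
  rw [O.valuation_lt_one_iff]
  show O.valuation ((s j : F) / LGP_b W j (x j)) < 1
  have h5 : O.valuation (LGP_b W j (x j)) ≠ 0 := (Valuation.ne_zero_iff _).2 (LGP_b_ne W j (x j))
  rw [map_div₀, div_lt_iff₀ (zero_lt_iff.2 h5), one_mul]
  exact hlt.trans_le (hx j ⟨w, hw⟩)

end Pool.Agent.MP_b197b4_ntLV
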