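import Pool.Agent.Lib.MP_b197b4_ntLV.LDefs
import Pool.Agent.Lib.MP_b197b4_ntLV.LGP
import Pool.Agent.Lib.MP_b197b4_ntUV.EMain

/-!
# LV, leaf LE: every symbol of units is a sum of symbols of units in good position

Copy of `part_E` (ntUV/EMain.lean; `chain`, `sum_yy` are reused) with `LGP_general_position` (`L = P.M`): the spaces `HB k g B`,
`B` nonempty, of monomials in the units `g j` are contained in `P.S` and contain a unit, so they are not contained in the `P.M l`;
so the generic elements `z γ` are units (`IsU.of`), and so are the products `nn`, `dd` of units (unfold them), `A j`, `B j`.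
-/

set_option autoImplicit false
set_option linter.unusedSectionVars false

namespace Pool.Agent.MP_b197b4_ntLV

open scoped BigOperators Pointwise
open Pool.Agent.MP_b197b4_ntUV

variable {k F : Type} [Field k] [Field F] [Algebra k F] {N : ℕ}

private theorem LE_mul {P : SL k F} {x y : Fˣ} (hx : IsU P (x : F)) (hy : IsU P (y : F)) :
    IsU P ((x * y : Fˣ) : F) := by
  rw [Units.val_mul]
  exact hx.mul hy

private theorem LE_pow {P : SL k F} {x : Fˣ} (hx : IsU P (x : F)) (m : ℕ) :
    IsU P ((x ^ m : Fˣ) : F) := by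
  rw [Units.val_pow_eq_pow_val]
  exact hx.pow m

private theorem LE_prod {P : SL k F} {ι : Type} [Fintype ι] {f : ι → Fˣ}
    (h : ∀ i, IsU P (f i : F)) : IsU P ((∏ i, f i : Fˣ) : F) := by
  rw [Units.coe_prod]
  exact IsU.prod _ _ fun i _ => h i

private theorem LE_mon (P : SL k F) (g : Fin N → Fˣ) (hg : ∀ j, IsU P (g j : F)) (β : Fin N → ℤ) :
    IsU P (mon g β : F) := by
  unfold mon
  refine LE_prod fun j => ?_
  rw [Units.val_zpow_eq_zpow_val]
  exact (hg j).zpow _

/-- the space of the monomials in units is contained in the ring -/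
theorem LE_HB_le (P : SL k F) (g : Fin N → Fˣ) (hg : ∀ j, IsU P (g j : F)) (B : Finset (Fin N → ℤ)) :
    HB k g B ≤ P.S := by
  refine Submodule.span_le.2 ?_
  rintro _ ⟨β, _, rfl⟩
  exact (LE_mon P g hg β).mem

section

variable {S : Type} [Fintype S] [DecidableEq S] {g : Fin N → Fˣ} {b : S → Fin N → ℤ} {D : ℕ}
  {z : GG N S → Fˣ}

private theorem LE_PP (P : SL k F) (hg : ∀ j, IsU P (g j : F)) (hz : ∀ γ, IsU P (z γ : F))
    (j : Fin N) : IsU P (PP g b D z j : F) := by
  unfold PP
  exact LE_mul (LE_pow (hg j) _) (LE_prod fun s => LE_mul (LE_pow (hz _) _) (LE_pow (hz _) _))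

private theorem LE_QQ (P : SL k F) (hz : ∀ γ, IsU P (z γ : F)) (j : Fin N) :
    IsU P (QQ b z j : F) := by
  unfold QQ
  exact LE_prod fun s => LE_mul (LE_pow (hz _) _) (LE_pow (hz _) _)

private theorem LE_nn (P : SL k F) (hg : ∀ j, IsU P (g j : F)) (hz : ∀ γ, IsU P (z γ : F))
    (c : Fin N → Option S) (j : Fin N) : IsU P (nn g b D z c j : F) := by
  unfold nn
  rcases c j with _ | s
  · exact LE_PP P hg hz j
  · rcases pr c j with _ | i
    · exact hz _
    · exact LE_mul (hz _) (hz _)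

private theorem LE_dd (P : SL k F) (hz : ∀ γ, IsU P (z γ : F))
    (c : Fin N → Option S) (j : Fin N) : IsU P (dd b z c j : F) := by
  unfold dd
  rcases c j with _ | s
  · exact LE_QQ P hz j
  · rcases pr c j with _ | i
    · exact hz _
    · exact LE_mul (hz _) (hz _)

end

/-- PART E for units. -/
theorem LE_part [Infinite k] {n : ℕ} (htd : TdLt k F (n + 1)) (P : SL k F)
    (lam : (Additive Fˣ) [⋀^Fin N]→ₗ[ℤ] ℝ)
    (hBC : ∀ (V : Submodule k F), FiniteDimensional k V → V ≤ P.S → ∀ A B : Fin N → Fˣ,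
      (∀ j, (A j : F) ∈ V) → (∀ j, (B j : F) ∈ V) → (∀ j, IsU P (A j : F)) → (∀ j, IsU P (B j : F)) →
      (∀ O : ValuationSubring F, IsPt k O → ∀ e : Fin N → Bool,
        {j | Van O V (if e j then (A j : F) else B j)}.ncard ≤ 3 * n) →
      lam (fun j => Additive.ofMul (A j / B j)) = 0) (g : Fin N → Fˣ) (hg : ∀ j, IsU P (g j : F)) :
    lam (fun j => Additive.ofMul (g j)) = 0 := by
  classical
  obtain ⟨S, _, _, b, B1, B2, D, hD0, h1, h12, hO⟩ := tents htd g
  -- the generic elements
  have hBB : ∀ γ : GG N S, (BB b B1 B2 D γ).Nonempty := by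
    rintro (⟨j, s, e⟩ | ⟨j, c⟩)
    · rcases e with _ | _
      · exact h1 s
      · exact (h1 s).mono (h12 s)
    · exact ne_sum _ fun i _ => ER_ne b B1 B2 D h1 h12 c i
  have hLE : ∀ (γ : GG N S) (l : Fin P.r), ¬ HB k g (BB b B1 B2 D γ) ≤ P.M l := by
    intro γ l h
    obtain ⟨β, hβ⟩ := hBB γ
    exact (LE_mon P g hg β).not_mem l (h (mon_mem hβ))
  obtain ⟨z0, hz, hz0, hzL, hgp⟩ := LGP_general_position htd
    (fun γ : GG N S => HB k g (BB b B1 B2 D γ)) (fun γ => HB_fin _) (fun γ => HB_ne (hBB γ)) P.M hLE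
  let z : GG N S → Fˣ := fun γ => Units.mk0 (z0 γ) (hz0 γ)
  have hzm : ∀ γ, (z γ : F) ∈ HB k g (BB b B1 B2 D γ) := hz
  have hzU : ∀ γ, IsU P (z γ : F) := fun γ => IsU.of (LE_HB_le P g hg _ (hz γ)) (hzL γ)
  -- the symbols in good position
  have key : ∀ c : Fin N → Option S, lam (fun j => Additive.ofMul (yy g b D z j (c j))) = 0 := by
    intro c
    let Δ : Finset (Fin N → ℤ) := ∑ j, ER b B1 B2 D c j
    have hΔ : ∀ j, ER b B1 B2 D c j + BB b B1 B2 D (Sum.inr (j, c)) = Δ := fun j =>
      Finset.add_sum_erase Finset.univ (fun i => ER b B1 B2 D c i) (Finset.mem_univ j)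
    let A : Fin N → Fˣ := fun j => nn g b D z c j * z (Sum.inr (j, c))
    let B : Fin N → Fˣ := fun j => dd b z c j * z (Sum.inr (j, c))
    have hrow : ∀ j, Rep k g (BB b B1 B2 D) z (A j : F) Δ (UU c j) (XX g B1 B2 c j) ∧
        Rep k g (BB b B1 B2 D) z (B j : F) Δ (UU c j) (XX g B1 B2 c j) := by
      intro j
      obtain ⟨r1, r2⟩ := rep_row hzm h1 h12 (fun O hO' => (hO O hO').1) c j
      have r3 : Rep k g (BB b B1 B2 D) z (z (Sum.inr (j, c)) : F) (BB b B1 B2 D (Sum.inr (j, c))) (UU c j)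
          (XX g B1 B2 c j) := Rep.gen (hzm _) (Or.inr (Or.inr rfl))
      have r4 := r1.mul r3
      have r5 := r2.mul r3
      rw [hΔ j] at r4 r5
      exact ⟨r4, r5⟩
    have hAU : ∀ j, IsU P (A j : F) := fun j => LE_mul (LE_nn P hg hzU c j) (hzU _)
    have hBU : ∀ j, IsU P (B j : F) := fun j => LE_mul (LE_dd P hzU c j) (hzU _)
    have h2 := hBC (HB k g Δ) (HB_fin _) (LE_HB_le P g hg Δ) A B (fun j => (hrow j).1.mem)
      (fun j => (hrow j).2.mem) hAU hBU ?_
    · have h3 : (fun j => Additive.ofMul (A j / B j)) = fun j => Additive.ofMul (ww g b D z c j) := by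
        funext j
        show Additive.ofMul (nn g b D z c j * z (Sum.inr (j, c)) / (dd b z c j * z (Sum.inr (j, c)))) = _
        rw [mul_div_mul_right_eq_div, nn_dd]
      rw [h3] at h2
      rw [chain lam (fun j => yy g b D z j (c j)) (pr c) fun j i h => (pr_lt h).1]
      exact h2
    · intro O hO' e
      refine le_trans (Set.ncard_le_ncard ?_ (Set.toFinite _))
        (card_bad (g := g) (B1 := B1) (B2 := B2) c {γ | Van O (HB k g (BB b B1 B2 D γ)) (z0 γ)} (hgp O hO')
          (hO O hO').2)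
      intro j hj
      by_contra hcon
      have hcon1 : ¬ ((∃ γ ∈ {γ | Van O (HB k g (BB b B1 B2 D γ)) (z0 γ)}, γ ∈ UU c j) ∨
          XX g B1 B2 c j O) := hcon
      rw [not_or] at hcon1
      obtain ⟨hc1, hc2⟩ := hcon1
      have h3 : ∀ γ ∈ UU c j, O.valuation (z γ : F) = MB O g (BB b B1 B2 D γ) := by
        intro γ hγ
        refine le_antisymm (le_MB hO' (hzm γ)) ?_
        by_contra h4
        exact hc1 ⟨γ, (van_iff hO').2 (not_le.1 h4), hγ⟩
      have h4 : O.valuation (if e j then (A j : F) else B j) = MB O g Δ := by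
        split
        · exact (hrow j).1.val O hO' h3 hc2
        · exact (hrow j).2.val O hO' h3 hc2
      have h5 : Van O (HB k g Δ) (if e j then (A j : F) else B j) := hj
      rw [van_iff hO', h4] at h5
      exact lt_irrefl _ h5
  -- the expansion
  have h2 : lam (fun j => Additive.ofMul (g j ^ D)) = 0 := by
    have h3 : (fun j => Additive.ofMul (g j ^ D)) = fun j =>
        ∑ τ : Option S, (τ.elim 1 fun s => b s j : ℤ) • Additive.ofMul (yy g b D z j τ) :=
      funext fun j => sum_yy g b D z j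
    rw [h3]
    have h4 := lam.toMultilinearMap.map_sum
      (g := fun (j : Fin N) (τ : Option S) => (τ.elim 1 fun s => b s j : ℤ) • Additive.ofMul (yy g b D z j τ))
    refine h4.trans ?_
    refine Finset.sum_eq_zero fun c _ => ?_
    have h5 := lam.toMultilinearMap.map_smul_univ
      (fun j => ((c j).elim 1 fun s => b s j : ℤ)) (fun j => Additive.ofMul (yy g b D z j (c j)))
    refine h5.trans ?_
    have h6 := key c
    rw [show lam.toMultilinearMap (fun j => Additive.ofMul (yy g b D z j (c j))) = 0 from h6, smul_zero]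
  have h3 : (fun j => Additive.ofMul (g j ^ D)) = fun j => (D : ℤ) • Additive.ofMul (g j) := by
    funext j
    rw [ofMul_pow, natCast_zsmul]
  rw [h3] at h2
  have h4 := lam.toMultilinearMap.map_smul_univ (fun _ => (D : ℤ)) (fun j => Additive.ofMul (g j))
  have h5 : (∏ _j : Fin N, (D : ℤ)) • lam (fun j => Additive.ofMul (g j)) = 0 := h4.symm.trans h2
  rw [smul_eq_zero] at h5
  refine h5.resolve_left ?_
  rw [Finset.prod_const]
  exact pow_ne_zero _ (by exact_mod_cast hD0.ne')

end Pool.Agent.MP_b197b4_ntLV
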