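import Pool.Agent.Lib.MP_b197b4_ntLV.LC5
import Pool.Agent.Lib.MP_b197b4_ntLV.LE
import Pool.Agent.Lib.MP_b197b4_ntUV.BC

/-!
# LV: THEOREM BC for semilocal rings, and the vanishing of all functionals
-/

set_option autoImplicit false

namespace Pool.Agent.MP_b197b4_ntLV

open scoped BigOperators
open Pool.Agent.MP_b197b4_ntUV

variable {k F : Type} [Field k] [Field F] [Algebra k F]

/-- THEOREM BC for a semilocal ring. -/
theorem LBC_main (hk : LocFin k) {n t N : ℕ} (htd : TdLt k F (n + 1)) (hN : N0 n t ≤ N) (P : SL k F)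
    (V : Submodule k F) (hV : FiniteDimensional k V) (hVS : V ≤ P.S)
    (lam : (Additive Fˣ) [⋀^Fin N]→ₗ[ℤ] ℝ) (hS : StU P lam)
    (A B : Fin N → Fˣ) (hA : ∀ j, (A j : F) ∈ V) (hB : ∀ j, (B j : F) ∈ V)
    (hAu : ∀ j, IsU P (A j : F)) (hBu : ∀ j, IsU P (B j : F))
    (hv : ∀ O : ValuationSubring F, IsPt k O → ∀ e : Fin N → Bool,
      {j | Van O V (if e j then (A j : F) else (B j : F))}.ncard ≤ t) :
    lam (fun j => Additive.ofMul (A j / B j)) = 0 := by
  have := hk.infinite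
  have hN' : 0 < N := by
    have h1 : 0 < (3 * n + 1).choose n := Nat.choose_pos (by omega)
    exact lt_of_lt_of_le (by unfold N0; positivity) hN
  have hV0 : V ≠ ⊥ := by
    intro h
    have := hA ⟨0, hN'⟩
    rw [h, Submodule.mem_bot] at this
    exact (A ⟨0, hN'⟩).ne_zero this
  obtain ⟨T, hT, hT0, hTM, hTv⟩ := LGP_general_position (k := k) htd (G := Fin (n + 1)) (fun _ => V)
    (fun _ => hV) (fun _ => hV0) P.M (fun _ l h => (hAu ⟨0, hN'⟩).not_mem l (h (hA ⟨0, hN'⟩)))
  refine LC5_BC hk hN P V hVS T hT (fun i => IsU.of (hVS (hT i)) (hTM i)) ?_ lam hS A B hA hB hAu hBu hv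
  intro O hO
  by_contra hcon
  push Not at hcon
  have h1 := hTv O hO
  have h2 : {i | Van O V (T i)} = Set.univ := by
    ext i; simp [hcon i]
  rw [h2, Set.ncard_univ, Nat.card_fin] at h1
  omega

/-- all alternating maps of large degree which kill the Steinberg symbols of units vanish on units -/
theorem LBC_lam_zero (hk : LocFin k) {n N : ℕ} (htd : TdLt k F (n + 1)) (hN : N0 n (3 * n) ≤ N) (P : SL k F)
    (lam : (Additive Fˣ) [⋀^Fin N]→ₗ[ℤ] ℝ) (hS : StU P lam) (g : Fin N → Fˣ) (hg : ∀ j, IsU P (g j : F)) :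
    lam (fun j => Additive.ofMul (g j)) = 0 := by
  have := hk.infinite
  exact LE_part htd P lam (fun V hV hVS A B hA hB hAu hBu hv =>
    LBC_main hk htd hN P V hV hVS lam hS A B hA hB hAu hBu hv) g hg

end Pool.Agent.MP_b197b4_ntLV
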