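import Pool.Agent.Lib.MP_b197b4_ntUV.C4

/-!
# LV, leaf LC4: descent to a finite field, with `H0 ⊆ H`

Copy of ntUV/C4.lean with one more clause in the conclusion (`H0` is the span over `K` of a basis of `H`).
-/

set_option autoImplicit false

namespace Pool.Agent.MP_b197b4_ntLV

open scoped BigOperators
open Pool.Agent.MP_b197b4_ntUV

variable {k F : Type} [Field k] [Field F] [Algebra k F]

/-- a retraction of `k` onto a subfield -/
private theorem LC4_ret (K : Subfield k) : ∃ ρ : k → K, (∀ x y, ρ (x + y) = ρ x + ρ y) ∧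
    (∀ (c : K) (x : k), ρ ((c : k) * x) = c * ρ x) ∧ ρ 1 = 1 := by
  have hinj : LinearMap.ker (Algebra.linearMap K k) = ⊥ :=
    LinearMap.ker_eq_bot.2 (FaithfulSMul.algebraMap_injective K k)
  obtain ⟨ρ, hρ⟩ := LinearMap.exists_leftInverse_of_injective (Algebra.linearMap K k) hinj
  refine ⟨ρ, fun x y => map_add ρ x y, fun c x => ?_, ?_⟩
  · have h1 := map_smul ρ c x
    rw [smul_eq_mul] at h1
    exact h1
  · have h1 := LinearMap.congr_fun hρ 1
    have h2 : (Algebra.linearMap K k) 1 = 1 := map_one (algebraMap K k)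
    rw [LinearMap.comp_apply, h2] at h1
    exact h1

/-- coordinates on a subspace, extended to `F` -/
private theorem LC4_coord (W : Submodule k F) {n : ℕ} (w : Module.Basis (Fin n) k W) :
    ∃ cW : F →ₗ[k] (Fin n → k), (∀ x ∈ W, ∑ d, cW x d • (w d : F) = x) ∧
      ∀ c : Fin n → k, cW (∑ d, c d • (w d : F)) = c := by
  obtain ⟨g, hg⟩ := LinearMap.exists_extend (w.equivFun : W →ₗ[k] (Fin n → k))
  have hg1 : ∀ x : W, g (x : F) = w.equivFun x := fun x => LinearMap.congr_fun hg x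
  refine ⟨g, fun x hx => ?_, fun c => ?_⟩
  · have h1 := hg1 ⟨x, hx⟩
    have h2 := congrArg (Submodule.subtype W) (w.sum_equivFun ⟨x, hx⟩)
    rw [map_sum] at h2
    change g x = _ at h1
    rw [h1]
    exact h2
  · have h1 : ∑ d, c d • (w d : F) = ((∑ d, c d • w d : W) : F) := by
      rw [Submodule.coe_sum]
      rfl
    rw [h1, hg1, ← w.equivFun_symm_apply]
    exact w.equivFun.apply_symm_apply c

private theorem LC4_span {K : Subfield k} {n : ℕ} {v : Fin n → F} {x : F} :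
    x ∈ Submodule.span K (Set.range v) ↔ ∃ c : Fin n → K, ∑ i, ((c i : K) : k) • v i = x :=
  Submodule.mem_span_range_iff_exists_fun K

/-- triple products of spans -/
private theorem LC4_triple {K : Subfield k} {n : ℕ} {v : Fin n → F} {W0 : Submodule K F}
    (hv : ∀ i j l, v i * v j * v l ∈ W0) (a b c : F) (ha : a ∈ Submodule.span K (Set.range v))
    (hb : b ∈ Submodule.span K (Set.range v)) (hc : c ∈ Submodule.span K (Set.range v)) :
    a * b * c ∈ W0 := by
  have h1 : ∀ a ∈ Submodule.span K (Set.range v), ∀ j l, a * v j * v l ∈ W0 := by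
    intro a ha j l
    refine Submodule.span_induction (p := fun a _ => a * v j * v l ∈ W0) ?_ ?_ ?_ ?_ ha
    · rintro _ ⟨i, rfl⟩
      exact hv i j l
    · rw [zero_mul, zero_mul]
      exact W0.zero_mem
    · intro x y _ _ hx hy
      rw [add_mul, add_mul]
      exact W0.add_mem hx hy
    · intro t x _ hx
      rw [smul_mul_assoc, smul_mul_assoc]
      exact W0.smul_mem t hx
  have h2 : ∀ b ∈ Submodule.span K (Set.range v), ∀ l, a * b * v l ∈ W0 := by
    intro b hb l
    refine Submodule.span_induction (p := fun b _ => a * b * v l ∈ W0) ?_ ?_ ?_ ?_ hb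
    · rintro _ ⟨i, rfl⟩
      exact h1 a ha i l
    · rw [mul_zero, zero_mul]
      exact W0.zero_mem
    · intro x y _ _ hx hy
      rw [mul_add, add_mul]
      exact W0.add_mem hx hy
    · intro t x _ hx
      rw [mul_smul_comm, smul_mul_assoc]
      exact W0.smul_mem t hx
  refine Submodule.span_induction (p := fun c _ => a * b * c ∈ W0) ?_ ?_ ?_ ?_ hc
  · rintro _ ⟨i, rfl⟩
    exact h2 b hb i
  · rw [mul_zero]
    exact W0.zero_mem
  · intro x y _ _ hx hy
    rw [mul_add]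
    exact W0.add_mem hx hy
  · intro t x _ hx
    rw [mul_smul_comm]
    exact W0.smul_mem t hx

private theorem LC4_li {K : Subfield k} {n : ℕ} {v : Fin n → F} (hv : LinearIndependent k v) :
    LinearIndependent K v := by
  rw [Fintype.linearIndependent_iff] at hv ⊢
  intro g hg i
  have h1 := hv (fun i => ((g i : K) : k)) hg i
  exact Subtype.ext h1

theorem LC4_descent (hk : LocFin k) (H W : Submodule k F) [FiniteDimensional k H]
    [FiniteDimensional k W] (hHW : ∀ a b c : F, a ∈ H → b ∈ H → c ∈ H → a * b * c ∈ W)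
    (S : Finset F) (hS : ∀ x ∈ S, x ∈ H) (q : ℕ) :
    ∃ (K : Subfield k) (H0 W0 : Submodule K F), Finite K ∧ q ≤ Nat.card K ∧ Finite H0 ∧ Finite W0 ∧
      Module.finrank K W0 = Module.finrank k W ∧ (∀ x ∈ S, x ∈ H0) ∧ (∀ x ∈ H0, x ∈ H) ∧
      (∀ a b c : F, a ∈ H0 → b ∈ H0 → c ∈ H0 → a * b * c ∈ W0) ∧
      ∀ (ι : Type) (I : Finset ι) (x y : ι → F), (∀ j, x j ∈ H0 ∧ y j ∈ H0) →
        (∀ w ∈ W, ∃ u : ι → F, (∀ j, u j ∈ H) ∧ ∑ j ∈ I, x j * y j * u j = w) →
        ∀ w ∈ W0, ∃ u : ι → F, (∀ j, u j ∈ H0) ∧ ∑ j ∈ I, x j * y j * u j = w := by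
  classical
  obtain ⟨a, hadef⟩ : ∃ a, a = Module.finrank k H := ⟨_, rfl⟩
  obtain ⟨b, hbdef⟩ : ∃ b, b = Module.finrank k W := ⟨_, rfl⟩
  have h : Module.Basis (Fin a) k H := hadef ▸ Module.finBasis k H
  have w : Module.Basis (Fin b) k W := hbdef ▸ Module.finBasis k W
  obtain ⟨cH, hH1, hH2⟩ := LC4_coord H h
  obtain ⟨cW, hW1, hW2⟩ := LC4_coord W w
  obtain ⟨K, hKf, hKq, hKs⟩ := hk ((Finset.univ.image fun t : (Fin a × Fin a × Fin a) × Fin b =>
      cW ((h t.1.1 : F) * h t.1.2.1 * h t.1.2.2) t.2) ∪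
    ((S ×ˢ Finset.univ).image fun t : F × Fin a => cH t.1 t.2)) q
  obtain ⟨ρ, hρ1, hρ2, hρ3⟩ := LC4_ret K
  have hρ0 : ρ 0 = 0 := by
    have h1 := hρ1 0 0
    rw [add_zero] at h1
    exact left_eq_add.1 h1
  have hρs : ∀ (ι : Type) (I : Finset ι) (f : ι → k), ρ (∑ j ∈ I, f j) = ∑ j ∈ I, ρ (f j) := by
    intro ι I f
    induction I using Finset.induction_on with
    | empty => rw [Finset.sum_empty, Finset.sum_empty, hρ0]
    | insert x s hx ih => rw [Finset.sum_insert hx, Finset.sum_insert hx, hρ1, ih]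
  obtain ⟨H0, hH0⟩ : ∃ H0 : Submodule K F, H0 = Submodule.span K (Set.range fun i => (h i : F)) := ⟨_, rfl⟩
  obtain ⟨W0, hW0⟩ : ∃ W0 : Submodule K F, W0 = Submodule.span K (Set.range fun i => (w i : F)) := ⟨_, rfl⟩
  have mH : ∀ x, x ∈ H0 ↔ ∃ c : Fin a → K, ∑ i, ((c i : K) : k) • (h i : F) = x := fun x => by
    rw [hH0]
    exact LC4_span
  have mW : ∀ x, x ∈ W0 ↔ ∃ c : Fin b → K, ∑ i, ((c i : K) : k) • (w i : F) = x := fun x => by
    rw [hW0]
    exact LC4_span
  have finH : Finite H0 := by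
    have h1 : Module.Finite K H0 := by
      rw [hH0]
      exact Module.Finite.span_of_finite K (Set.finite_range _)
    exact Module.finite_of_finite K
  have finW : Finite W0 := by
    have h1 : Module.Finite K W0 := by
      rw [hW0]
      exact Module.Finite.span_of_finite K (Set.finite_range _)
    exact Module.finite_of_finite K
  have hrank : Module.finrank K W0 = Module.finrank k W := by
    have h1 : LinearIndependent k (fun i => (w i : F)) :=
      w.linearIndependent.map' W.subtype (Submodule.ker_subtype W)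
    rw [hW0, finrank_span_eq_card (LC4_li h1), Fintype.card_fin, hbdef]
  have hSmem : ∀ x ∈ S, x ∈ H0 := by
    intro x hx
    rw [mH]
    refine ⟨fun i => ⟨cH x i, ?_⟩, ?_⟩
    · refine hKs _ (Finset.mem_union_right _ (Finset.mem_image.2 ⟨(x, i), ?_, rfl⟩))
      exact Finset.mem_product.2 ⟨hx, Finset.mem_univ i⟩
    · exact hH1 x (hS x hx)
  have htri0 : ∀ i j l, (h i : F) * (h j : F) * (h l : F) ∈ W0 := by
    intro i j l
    rw [mW]
    refine ⟨fun d => ⟨cW ((h i : F) * h j * h l) d, ?_⟩, ?_⟩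
    · exact hKs _ (Finset.mem_union_left _ (Finset.mem_image.2
        ⟨((i, j, l), d), Finset.mem_univ _, rfl⟩))
    · exact hW1 _ (hHW _ _ _ (h i).2 (h j).2 (h l).2)
  have htri : ∀ x y z : F, x ∈ H0 → y ∈ H0 → z ∈ H0 → x * y * z ∈ W0 := by
    intro x y z hx hy hz
    rw [hH0] at hx hy hz
    exact LC4_triple htri0 x y z hx hy hz
  have hH0H : ∀ x ∈ H0, x ∈ H := by
    intro x hx
    obtain ⟨c, rfl⟩ := (mH x).1 hx
    exact H.sum_mem fun i _ => H.smul_mem _ (h i).2
  refine ⟨K, H0, W0, hKf, hKq, finH, finW, hrank, hSmem, hH0H, htri, ?_⟩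
  intro ι I x y hxy hsurj w' hw'
  -- the retraction on `W`
  obtain ⟨RW, hRW⟩ : ∃ RW : F → F, ∀ z, RW z = ∑ d, ((ρ (cW z d) : K) : k) • (w d : F) := ⟨_, fun _ => rfl⟩
  obtain ⟨RH, hRH⟩ : ∃ RH : F → F, ∀ z, RH z = ∑ d, ((ρ (cH z d) : K) : k) • (h d : F) := ⟨_, fun _ => rfl⟩
  have hRHm : ∀ z, RH z ∈ H0 := fun z => by
    rw [mH]
    exact ⟨fun d => ρ (cH z d), (hRH z).symm⟩
  have hRWs : ∀ (κ : Type) (J : Finset κ) (f : κ → F), RW (∑ j ∈ J, f j) = ∑ j ∈ J, RW (f j) := by
    intro κ J f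
    simp only [hRW]
    rw [Finset.sum_comm]
    refine Finset.sum_congr rfl fun d _ => ?_
    rw [← Finset.sum_smul]
    congr 1
    rw [map_sum, Finset.sum_apply, hρs]
    exact map_sum (K.subtype) _ _
  have hRWc : ∀ (c : k) (z : F), z ∈ W0 → RW (c • z) = ((ρ c : K) : k) • z := by
    intro c z hz
    obtain ⟨m, rfl⟩ := (mW z).1 hz
    rw [hRW, Finset.smul_sum, Finset.smul_sum]
    have h1 : cW (∑ i, c • ((m i : K) : k) • (w i : F)) = fun i => c * ((m i : K) : k) := by
      rw [← hW2 (fun i => c * ((m i : K) : k))]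
      congr 1
      refine Finset.sum_congr rfl fun i _ => ?_
      rw [smul_smul]
    rw [h1]
    refine Finset.sum_congr rfl fun i _ => ?_
    change ((ρ (c * ((m i : K) : k)) : K) : k) • (w i : F) = _
    rw [mul_comm c, hρ2, smul_smul]
    congr 1
    push_cast
    ring
  have hRWid : ∀ z ∈ W0, RW z = z := fun z hz => by
    have h1 := hRWc 1 z hz
    rw [one_smul, hρ3] at h1
    rw [h1]
    exact one_smul k z
  have hkey : ∀ z, (∀ l, z * (h l : F) ∈ W0) → ∀ u ∈ H, RW (z * u) = z * RH u := by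
    intro z hz u hu
    have h1 : z * u = ∑ l, cH u l • (z * (h l : F)) := by
      rw [← hH1 u hu, Finset.mul_sum, hH2]
      exact Finset.sum_congr rfl fun l _ => mul_smul_comm _ _ _
    rw [h1, hRWs, hRH, Finset.mul_sum]
    refine Finset.sum_congr rfl fun l _ => ?_
    rw [hRWc _ _ (hz l), mul_smul_comm]
  have hw'W : w' ∈ W := by
    obtain ⟨m, rfl⟩ := (mW w').1 hw'
    exact W.sum_mem fun i _ => W.smul_mem _ (w i).2
  obtain ⟨u, hu1, hu2⟩ := hsurj w' hw'W
  refine ⟨fun j => RH (u j), fun j => hRHm _, ?_⟩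
  have h1 := congrArg RW hu2
  rw [hRWs, hRWid w' hw'] at h1
  rw [← h1]
  refine Finset.sum_congr rfl fun j _ => ?_
  rw [hkey (x j * y j) (fun l => ?_) (u j) (hu1 j)]
  refine htri _ _ _ (hxy j).1 (hxy j).2 ?_
  rw [hH0]
  exact Submodule.subset_span ⟨l, rfl⟩

end Pool.Agent.MP_b197b4_ntLV
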