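import Pool.Agent.Lib.MP_b197b4_ntLV.LB5
import Pool.Agent.Lib.MP_b197b4_ntLV.LC4
import Pool.Agent.Lib.MP_b197b4_ntUV.C5

/-!
# LV, leaf LC5: THEOREM BC with given units `T_0, .., T_n`

Copy of `C5_BC` (ntUV/C5.lean) with `LC4_descent`, `LB5_main` (for the ring `P.restr K'`) in place of `C4_descent`, `B5_main`; all the
multipliers are monomials in the units `T i`, so the entries of the families are units, `V ^ K ≤ P.S`, and `H0 ⊆ V ^ K` gives
`H0 ≤ (P.restr K').S`.
-/

set_option autoImplicit false

namespace Pool.Agent.MP_b197b4_ntLV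

open scoped BigOperators
open Pool.Agent.MP_b197b4_ntUV

variable {k F : Type} [Field k] [Field F] [Algebra k F]

private theorem LC5_mono_u {n : ℕ} {P : SL k F} (T : Fin (n + 1) → F) (hTu : ∀ i, IsU P (T i))
    (a : Fin (n + 1) → ℕ) : IsU P (mono T a) :=
  IsU.prod Finset.univ _ fun i _ => (hTu i).pow (a i)

private theorem LC5_pow_le (P : SL k F) (V : Submodule k F) (hVS : V ≤ P.S) (m : ℕ) : V ^ m ≤ P.S := by
  induction m with
  | zero =>
    rw [pow_zero, Submodule.one_le]
    exact P.one_mem
  | succ m ih =>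
    rw [pow_succ, Submodule.mul_le]
    exact fun a ha b hb => P.mul_mem a b (ih ha) (hVS hb)

theorem LC5_BC (hk : LocFin k) {n t N : ℕ} (hN : N0 n t ≤ N) (P : SL k F)
    (V : Submodule k F) [FiniteDimensional k V] (hVS : V ≤ P.S) (T : Fin (n + 1) → F)
    (hT : ∀ i, T i ∈ V) (hTu : ∀ i, IsU P (T i))
    (hTp : ∀ O : ValuationSubring F, IsPt k O → ∃ i, ¬ Van O V (T i))
    (lam : (Additive Fˣ) [⋀^Fin N]→ₗ[ℤ] ℝ) (hS : StU P lam)
    (A B : Fin N → Fˣ) (hA : ∀ j, (A j : F) ∈ V) (hB : ∀ j, (B j : F) ∈ V)
    (hAu : ∀ j, IsU P (A j : F)) (hBu : ∀ j, IsU P (B j : F))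
    (hv : ∀ O : ValuationSubring F, IsPt k O → ∀ e : Fin N → Bool,
      {j | Van O V (if e j then (A j : F) else (B j : F))}.ncard ≤ t) :
    lam (fun j => Additive.ofMul (A j / B j)) = 0 := by
  classical
  have hT0 : ∀ i, T i ≠ 0 := fun i => (hTu i).ne
  obtain ⟨a', a'', ha', ha'', hgrid⟩ := C2_grid n
  -- the blocks
  have hcard : Fintype.card (Fin 3 × (Fin (t + 1) × Lam n)) ≤ Fintype.card (Fin N) := by
    rw [Fintype.card_prod, Fintype.card_prod, card_Lam, Fintype.card_fin, Fintype.card_fin,
      Fintype.card_fin]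
    exact hN
  obtain ⟨g⟩ := Function.Embedding.nonempty_of_card_le hcard
  -- the covering lemma for every choice and every block
  have hcov : ∀ x : (Fin N → Bool) × Fin 3, ∃ K0 : ℕ, ∀ K, K0 ≤ K → ∀ w ∈ V ^ (3 * K),
      ∃ u : Fin (t + 1) × Lam n → F, (∀ y, u y ∈ V ^ K) ∧
        ∑ y, (if x.1 (g (x.2, y)) then (A (g (x.2, y)) : F) else (B (g (x.2, y)) : F)) *
          mono T (fun i => a' K y.2 i + a'' K y.2 i) * u y = w := by
    rintro ⟨e, b⟩
    refine C3_cover V T hT hTp (fun K l i => a' K l i + a'' K l i) ?_ hgrid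
      (fun s l => if e (g (b, (s, l))) then (A (g (b, (s, l))) : F) else (B (g (b, (s, l))) : F))
      ?_ ?_
    · intro K l hK
      rw [Finset.sum_add_distrib, ha' K l hK, ha'']
      omega
    · intro s l
      split_ifs
      · exact hA _
      · exact hB _
    · intro O hO l
      by_contra hcon
      push Not at hcon
      have h1 := hv O hO e
      have h2 : (Set.range fun s : Fin (t + 1) => g (b, (s, l))) ⊆
          {j | Van O V (if e j then (A j : F) else (B j : F))} := by
        rintro _ ⟨s, rfl⟩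
        exact hcon s
      have h3 := Set.ncard_le_ncard h2 (Set.toFinite _)
      have h4 : (Set.range fun s : Fin (t + 1) => g (b, (s, l))).ncard = t + 1 := by
        rw [← Set.image_univ, Set.ncard_image_of_injective, Set.ncard_univ, Nat.card_fin]
        intro s s' hss
        have := g.injective hss
        simpa using this
      omega
  choose K0 hK0 using hcov
  obtain ⟨K, hK1, hK⟩ : ∃ K, 1 ≤ K ∧ ∀ x, K0 x ≤ K :=
    ⟨1 + ∑ x, K0 x, by omega, fun x => (Finset.single_le_sum (f := K0) (fun _ _ => Nat.zero_le _)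
      (Finset.mem_univ x)).trans (Nat.le_add_left _ _)⟩
  -- the multipliers
  set eta : Fin N → F := Function.extend g (fun x => mono T (a' K x.2.2))
    (fun _ => T 0 ^ (K - 1)) with heta
  set yy : Fin N → F := Function.extend g (fun x => mono T (a'' K x.2.2))
    (fun _ => T 0 ^ K) with hyy
  have heta_g : ∀ x, eta (g x) = mono T (a' K x.2.2) := fun x => by
    rw [heta, g.injective.extend_apply]
  have hyy_g : ∀ x, yy (g x) = mono T (a'' K x.2.2) := fun x => by
    rw [hyy, g.injective.extend_apply]
  have heta_mem : ∀ j, eta j ∈ V ^ (K - 1) := by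
    intro j
    by_cases hj : ∃ x, g x = j
    · obtain ⟨x, rfl⟩ := hj
      rw [heta_g]
      have := C5_mono_mem V T hT (a' K x.2.2)
      rwa [ha' K _ hK1] at this
    · rw [heta, Function.extend_apply' _ _ _ hj]
      exact Submodule.pow_mem_pow V (hT 0) _
  have heta_u : ∀ j, IsU P (eta j) := by
    intro j
    by_cases hj : ∃ x, g x = j
    · obtain ⟨x, rfl⟩ := hj
      rw [heta_g]
      exact LC5_mono_u T hTu _
    · rw [heta, Function.extend_apply' _ _ _ hj]
      exact (hTu 0).pow _
  have heta_ne : ∀ j, eta j ≠ 0 := fun j => (heta_u j).ne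
  have hyy_mem : ∀ j, yy j ∈ V ^ K := by
    intro j
    by_cases hj : ∃ x, g x = j
    · obtain ⟨x, rfl⟩ := hj
      rw [hyy_g]
      have := C5_mono_mem V T hT (a'' K x.2.2)
      rwa [ha''] at this
    · rw [hyy, Function.extend_apply' _ _ _ hj]
      exact Submodule.pow_mem_pow V (hT 0) _
  have hmulK : ∀ x y : F, x ∈ V → y ∈ V ^ (K - 1) → x * y ∈ V ^ K := by
    intro x y hx hy
    have h1 : V ^ K = V ^ 1 * V ^ (K - 1) := by
      rw [← pow_add]
      congr 1
      omega
    rw [h1, pow_one]
    exact Submodule.mul_mem_mul hx hy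
  have hr_mem : T 0 ^ K ∈ V ^ K := Submodule.pow_mem_pow V (hT 0) _
  have hr_ne : T 0 ^ K ≠ 0 := pow_ne_zero _ (hT0 0)
  have hr_u : IsU P (T 0 ^ K) := (hTu 0).pow K
  have hfd : ∀ m : ℕ, FiniteDimensional k (V ^ m : Submodule k F) := by
    intro m
    rw [← Submodule.fg_iff_finiteDimensional]
    exact Submodule.FG.pow (Submodule.fg_iff_finiteDimensional V |>.mpr inferInstance) m
  have := hfd K
  have := hfd (3 * K)
  -- descent
  obtain ⟨K', H0, W0, hK'fin, hq, hH0fin, hW0fin, hrk, hS0, hH0H, hHW0, hdesc⟩ :=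
    LC4_descent hk (V ^ K) (V ^ (3 * K))
      (by
        intro a b c ha hb hc
        have h1 : V ^ (3 * K) = V ^ K * V ^ K * V ^ K := by
          rw [← pow_add, ← pow_add]
          congr 1
          ring
        rw [h1]
        exact Submodule.mul_mem_mul (Submodule.mul_mem_mul ha hb) hc)
      ((Finset.univ.image fun j => (A j : F) * eta j) ∪
        (Finset.univ.image fun j => (B j : F) * eta j) ∪
        (Finset.univ.image yy) ∪ {T 0 ^ K})
      (by
        intro x hx
        simp only [Finset.mem_union, Finset.mem_image, Finset.mem_univ, true_and,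
          Finset.mem_singleton] at hx
        rcases hx with ((⟨j, rfl⟩ | ⟨j, rfl⟩) | ⟨j, rfl⟩) | rfl
        · exact hmulK _ _ (hA j) (heta_mem j)
        · exact hmulK _ _ (hB j) (heta_mem j)
        · exact hyy_mem j
        · exact hr_mem)
      (qL P.r N (Module.finrank k (V ^ (3 * K) : Submodule k F)))
  have hSA : ∀ j, (A j : F) * eta j ∈ H0 := fun j => hS0 _ (by simp)
  have hSB : ∀ j, (B j : F) * eta j ∈ H0 := fun j => hS0 _ (by simp)
  have hSy : ∀ j, yy j ∈ H0 := fun j => hS0 _ (by simp)
  have hSr : T 0 ^ K ∈ H0 := hS0 _ (by simp)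
  have : Fintype K' := Fintype.ofFinite K'
  -- all the choices vanish
  have hzero : ∀ e : Fin N → Bool,
      ev lam (fun j => (if e j then (A j : F) * eta j else (B j : F) * eta j) / (T 0 ^ K)) = 0 := by
    intro e
    have hmem : ∀ j, (if e j then (A j : F) * eta j else (B j : F) * eta j) ∈ H0 := by
      intro j
      split_ifs
      · exact hSA j
      · exact hSB j
    have hne : ∀ j, (if e j then (A j : F) * eta j else (B j : F) * eta j) ≠ 0 := by
      intro j
      split_ifs
      · exact mul_ne_zero (A j).ne_zero (heta_ne j)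
      · exact mul_ne_zero (B j).ne_zero (heta_ne j)
    let X : Fin (N + 1) → H0 := Fin.cons ⟨T 0 ^ K, hSr⟩ (fun j => ⟨_, hmem j⟩)
    let Y : Fin (N + 1) → H0 := Fin.cons ⟨T 0 ^ K, hSr⟩ (fun j => ⟨_, hSy j⟩)
    let gb : Fin 3 → (Fin (t + 1) × Lam n) ↪ Fin (N + 1) := fun b =>
      ⟨fun x => (g (b, x)).succ, fun x x' h => by
        have h1 := g.injective (Fin.succ_injective _ h)
        exact (Prod.mk.inj h1).2⟩
    have hu : ∀ j, IsU P (if e j then (A j : F) * eta j else (B j : F) * eta j) := by
      intro j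
      split_ifs
      · exact (hAu j).mul (heta_u j)
      · exact (hBu j).mul (heta_u j)
    have hXu : ∀ j, IsU (P.restr K') (X j : F) := by
      intro j
      refine Fin.cases ?_ (fun j => ?_) j
      · exact hr_u
      · exact hu j
    have hX : Good H0 W0 X := by
      refine ⟨?_, Y, fun b => Finset.univ.map (gb b), ?_, ?_⟩
      · intro j
        refine Fin.cases ?_ (fun j => ?_) j
        · intro h
          exact hr_ne (congrArg Subtype.val h)
        · intro h
          exact hne j (congrArg Subtype.val h)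
      · intro b b' hbb
        rw [Finset.disjoint_left]
        intro j hj hj'
        obtain ⟨x, _, hx⟩ := Finset.mem_map.mp hj
        obtain ⟨x', _, hx'⟩ := Finset.mem_map.mp hj'
        rw [← hx'] at hx
        have h1 := g.injective (Fin.succ_injective _ hx)
        exact hbb (Prod.mk.inj h1).1
      · intro b
        have h1 := hdesc (Fin (N + 1)) (Finset.univ.map (gb b)) (fun j => (X j : F))
          (fun j => (Y j : F)) (fun j => ⟨(X j).2, (Y j).2⟩) (by
            intro w hw
            obtain ⟨u, hu, huw⟩ := hK0 (e, b) K (hK _) w hw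
            refine ⟨Function.extend (gb b) u (fun _ => 0), ?_, ?_⟩
            · intro j
              by_cases hj : ∃ x, gb b x = j
              · obtain ⟨x, rfl⟩ := hj
                rw [(gb b).injective.extend_apply]
                exact hu x
              · rw [Function.extend_apply' _ _ _ hj]
                exact Submodule.zero_mem _
            · rw [Finset.sum_map, ← huw]
              refine Finset.sum_congr rfl fun x _ => ?_
              rw [(gb b).injective.extend_apply]
              have e1 : (X (gb b x) : F) = (if e (g (b, x)) then (A (g (b, x)) : F) * eta (g (b, x))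
                  else (B (g (b, x)) : F) * eta (g (b, x))) := rfl
              have e2 : (Y (gb b x) : F) = yy (g (b, x)) := rfl
              rw [e1, e2, heta_g, hyy_g, C5_mono_add]
              dsimp only
              split_ifs <;> ring)
        intro w hw
        obtain ⟨u, hu, huw⟩ := h1 w hw
        exact ⟨fun j => ⟨u j, hu j⟩, huw⟩
    have hH0S : H0 ≤ (P.restr K').S := fun x hx => LC5_pow_le P V hVS K (hH0H x hx)
    have hB5 := LB5_main (P.restr K') H0 W0 hH0S (fun a b c => hHW0 _ _ _ a.2 b.2 c.2)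
      (by rw [hrk, ← Nat.card_eq_fintype_card]; exact hq) lam hS X ⟨hXu, hX⟩
    exact hB5
  have hdiv := A_div lam (fun j => (A j : F) * eta j) (fun j => (B j : F) * eta j)
    (fun j => mul_ne_zero (A j).ne_zero (heta_ne j))
    (fun j => mul_ne_zero (B j).ne_zero (heta_ne j)) (T 0 ^ K) hr_ne
  rw [Finset.sum_eq_zero (fun c _ => by rw [hzero c, mul_zero])] at hdiv
  rw [← A_ev_units lam (fun j => A j / B j), ← hdiv]
  congr 1
  funext j
  rw [Units.val_div_eq_div_val, mul_div_mul_right _ _ (heta_ne j)]

end Pool.Agent.MP_b197b4_ntLV
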