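import Pool.Agent.Lib.MP_b197b4_ntLV.LDefs

/-!
# LV, leaf LCount: two counting lemmas

`LC_coset`: if the set is empty trivial; otherwise `x0` in it, `x ↦ x - x0` injects it into the `K`-subspace
`D = {x : H | rho * x ∈ M i0} = {x : H | x ∈ M i0}` (`IsU.mul_mem_iff`) of `H`, which is proper because `H` contains a unit; so
`card D * card K ≤ card H` (`card H = card D * card (H ⧸ D)`, or finrank and `Module.card_eq_pow_finrank`).

`LC_fiber`: double counting over one variable: the bijection `(v, x) ↦ (put v x, v j0 a0)`, `put v x = update v j0 (update (v j0) a0 x)`: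
`card H * #{Sm ∧ E} = #{(v, x) : Sm (put v x) ∧ E (put v x)} = #{(v, x) : Sm v ∧ E (put v x)}`, and for every `v` at most
`card H / q` values `x`.  (Compare `B4_sum_update` in ntUV/B4.lean.)
-/

set_option autoImplicit false

namespace Pool.Agent.MP_b197b4_ntLV

open scoped BigOperators
open Pool.Agent.MP_b197b4_ntUV

/-- put `x` in the place `(j0, a0)` -/
def put {H : Type*} {N : ℕ} (j0 : Fin (N + 1)) (a0 : Fin 3) (v : Fin (N + 1) → Fin 3 → H) (x : H) :
    Fin (N + 1) → Fin 3 → H := Function.update v j0 (Function.update (v j0) a0 x)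

theorem LC_fiber {H : Type*} [Fintype H] [Nonempty H] {N : ℕ} (j0 : Fin (N + 1)) (a0 : Fin 3)
    (Sm E : (Fin (N + 1) → Fin 3 → H) → Prop) (q : ℕ)
    (hSm : ∀ v x, Sm v ↔ Sm (put j0 a0 v x))
    (hE : ∀ v, Nat.card {x : H // E (put j0 a0 v x)} * q ≤ Fintype.card H) :
    Nat.card {v : Fin (N + 1) → Fin 3 → H // Sm v ∧ E v} * q ≤
      Nat.card {v : Fin (N + 1) → Fin 3 → H // Sm v} := by
  classical
  have hfin : Finite H := inferInstance
  let V := Fin (N + 1) → Fin 3 → H
  let E1 : V × H ≃ V × H :=
    { toFun := fun p => (put j0 a0 p.1 p.2, p.1 j0 a0)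
      invFun := fun p => (put j0 a0 p.1 p.2, p.1 j0 a0)
      left_inv := by
        rintro ⟨v, h⟩
        simp [put]
      right_inv := by
        rintro ⟨v, h⟩
        simp [put] }
  let f : V → ℕ := fun v => if Sm v ∧ E v then 1 else 0
  have h1 : ∑ v : V, ∑ x : H, f (put j0 a0 v x) = Fintype.card H * ∑ v : V, f v := by
    have h2 : ∑ v : V, ∑ x : H, f (put j0 a0 v x) = ∑ p : V × H, f (E1 p).1 := by
      rw [← Fintype.sum_prod_type' (fun (v : V) (x : H) => f (put j0 a0 v x))]
      rfl
    rw [h2, Equiv.sum_comp E1 (fun p : V × H => f p.1), Fintype.sum_prod_type]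
    simp [Finset.sum_const, Finset.mul_sum]
  have h3 : ∑ v : V, f v = Nat.card {v : V // Sm v ∧ E v} := by
    rw [Nat.card_eq_fintype_card, Fintype.card_subtype, Finset.card_filter]
  have h4 : ∀ v : V, (∑ x : H, f (put j0 a0 v x)) * q ≤ (if Sm v then 1 else 0) * Fintype.card H := by
    intro v
    by_cases hv : Sm v
    · have h5 : ∑ x : H, f (put j0 a0 v x) = Nat.card {x : H // E (put j0 a0 v x)} := by
        rw [Nat.card_eq_fintype_card, Fintype.card_subtype, Finset.card_filter]
        refine Finset.sum_congr rfl fun x _ => ?_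
        have h6 : Sm (put j0 a0 v x) := (hSm v x).1 hv
        simp only [f, h6, true_and]
      rw [h5, if_pos hv, one_mul]
      exact hE v
    · have h5 : ∑ x : H, f (put j0 a0 v x) = 0 := by
        refine Finset.sum_eq_zero fun x _ => ?_
        have h6 : ¬ Sm (put j0 a0 v x) := fun h => hv ((hSm v x).2 h)
        simp only [f, h6, false_and, if_false]
      rw [h5, zero_mul]
      exact Nat.zero_le _
  have h7 : Fintype.card H * (Nat.card {v : V // Sm v ∧ E v} * q) ≤
      Fintype.card H * Nat.card {v : V // Sm v} := by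
    calc Fintype.card H * (Nat.card {v : V // Sm v ∧ E v} * q)
        = (∑ v : V, ∑ x : H, f (put j0 a0 v x)) * q := by
          rw [h1, h3, mul_assoc]
      _ = ∑ v : V, (∑ x : H, f (put j0 a0 v x)) * q := by
          rw [Finset.sum_mul]
      _ ≤ ∑ v : V, (if Sm v then 1 else 0) * Fintype.card H :=
          Finset.sum_le_sum fun v _ => h4 v
      _ = (∑ v : V, if Sm v then 1 else 0) * Fintype.card H := by
          rw [Finset.sum_mul]
      _ = Fintype.card H * Nat.card {v : V // Sm v} := by
          rw [Nat.card_eq_fintype_card, Fintype.card_subtype, Finset.card_filter, mul_comm]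
  exact Nat.le_of_mul_le_mul_left h7 Fintype.card_pos

theorem LC_coset {K F : Type*} [Field K] [Fintype K] [Field F] [Algebra K F] (P : SL K F)
    (H : Submodule K F) [Fintype H] (hH : ∃ x : H, IsU P (x : F)) (i0 : Fin P.r) (rho s : F) (hrho : IsU P rho) :
    Nat.card {x : H // rho * (x : F) + s ∈ P.M i0} * Fintype.card K ≤ Fintype.card H := by
  classical
  have hfinH : Finite H := inferInstance
  rcases isEmpty_or_nonempty {x : H // rho * (x : F) + s ∈ P.M i0} with he | ⟨⟨x0, hx0⟩⟩
  · rw [Nat.card_of_isEmpty, zero_mul]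
    exact Nat.zero_le _
  let D : Submodule K H := (P.M i0).comap H.subtype
  obtain ⟨u, hu⟩ := hH
  have huD : u ∉ D := fun h => hu.not_mem i0 h
  have h1 : Nat.card {x : H // rho * (x : F) + s ∈ P.M i0} ≤ Nat.card D := by
    have hmem : ∀ x : {x : H // rho * (x : F) + s ∈ P.M i0}, (x : H) - x0 ∈ D := by
      rintro ⟨x, hx⟩
      show ((x - x0 : H) : F) ∈ P.M i0
      rw [← hrho.mul_mem_iff i0]
      have h2 : rho * ((x - x0 : H) : F) = (rho * (x : F) + s) - (rho * (x0 : F) + s) := by
        push_cast
        ring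
      rw [h2]
      exact (P.M i0).sub_mem hx hx0
    refine Nat.card_le_card_of_injective
      (fun x : {x : H // rho * (x : F) + s ∈ P.M i0} => (⟨(x : H) - x0, hmem x⟩ : D)) ?_
    intro x y hxy
    have h3 : (x : H) - x0 = (y : H) - x0 := congrArg Subtype.val hxy
    exact Subtype.ext (sub_left_injective h3)
  have h4 : Nat.card K ≤ Nat.card (H ⧸ D) := by
    have hne : (Submodule.Quotient.mk u : H ⧸ D) ≠ 0 := by
      rw [Ne, Submodule.Quotient.mk_eq_zero]
      exact huD
    have hfinQ : Finite (H ⧸ D) := Quotient.finite _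
    refine Nat.card_le_card_of_injective (fun c : K => c • (Submodule.Quotient.mk u : H ⧸ D)) ?_
    exact smul_left_injective K hne
  have h5 : Nat.card H = Nat.card (H ⧸ D) * Nat.card D := by
    rw [mul_comm]
    exact Submodule.card_eq_card_quotient_mul_card D
  calc Nat.card {x : H // rho * (x : F) + s ∈ P.M i0} * Fintype.card K
      ≤ Nat.card D * Nat.card K := by
        rw [← Nat.card_eq_fintype_card (α := K)]
        exact Nat.mul_le_mul_right _ h1
    _ ≤ Nat.card D * Nat.card (H ⧸ D) := Nat.mul_le_mul_left _ h4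
    _ = Fintype.card H := by
        rw [← Nat.card_eq_fintype_card (α := H), h5, mul_comm]

end Pool.Agent.MP_b197b4_ntLV
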