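import Pool.Agent.Lib.MP_b197b4_ntUV.K1

/-!
# LV: Milnor K-groups of semilocal domains.  Definitions.

A semilocal subring `S` of a field `F`, given by the space `S` and finitely many ideals `M i` such that the elements
of `S` outside all the `M i` are units.
-/

set_option autoImplicit false

namespace Pool.Agent.MP_b197b4_ntLV

open scoped BigOperators
open Pool.Agent.MP_b197b4_ntUV

/-- A semilocal subring of `F` which contains `K`. -/
structure SL (K F : Type*) [Field K] [Field F] [Algebra K F] where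
  S : Submodule K F
  r : ℕ
  M : Fin r → Submodule K F
  one_mem : (1 : F) ∈ S
  mul_mem : ∀ x y : F, x ∈ S → y ∈ S → x * y ∈ S
  ideal : ∀ (i : Fin r) (x y : F), x ∈ S → y ∈ M i → x * y ∈ M i
  not_one : ∀ i, (1 : F) ∉ M i
  unit : ∀ x : F, x ∈ S → (∀ i, x ∉ M i) → x ≠ 0 ∧ x⁻¹ ∈ S

section unit

variable {K F : Type*} [Field K] [Field F] [Algebra K F]

/-- the units of the semilocal ring -/
def IsU (P : SL K F) (x : F) : Prop := x ∈ P.S ∧ x ≠ 0 ∧ x⁻¹ ∈ P.S

variable {P : SL K F}

theorem IsU.mem {x : F} (h : IsU P x) : x ∈ P.S := h.1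

theorem IsU.ne {x : F} (h : IsU P x) : x ≠ 0 := h.2.1

theorem IsU.one : IsU P (1 : F) := ⟨P.one_mem, one_ne_zero, by rw [inv_one]; exact P.one_mem⟩

theorem IsU.inv {x : F} (h : IsU P x) : IsU P x⁻¹ := ⟨h.2.2, inv_ne_zero h.2.1, by rw [inv_inv]; exact h.1⟩

theorem IsU.mul {x y : F} (h : IsU P x) (h' : IsU P y) : IsU P (x * y) :=
  ⟨P.mul_mem _ _ h.1 h'.1, mul_ne_zero h.2.1 h'.2.1, by
    rw [mul_inv]
    exact P.mul_mem _ _ h.2.2 h'.2.2⟩

theorem IsU.div {x y : F} (h : IsU P x) (h' : IsU P y) : IsU P (x / y) := by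
  rw [div_eq_mul_inv]
  exact h.mul h'.inv

theorem IsU.neg {x : F} (h : IsU P x) : IsU P (-x) :=
  ⟨P.S.neg_mem h.1, neg_ne_zero.2 h.2.1, by
    rw [inv_neg]
    exact P.S.neg_mem h.2.2⟩

theorem IsU.pow {x : F} (h : IsU P x) (n : ℕ) : IsU P (x ^ n) := by
  induction n with
  | zero =>
    rw [pow_zero]
    exact IsU.one
  | succ n ih =>
    rw [pow_succ]
    exact ih.mul h

theorem IsU.zpow {x : F} (h : IsU P x) (n : ℤ) : IsU P (x ^ n) := by
  cases n with
  | ofNat n =>
    rw [Int.ofNat_eq_natCast, zpow_natCast]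
    exact h.pow n
  | negSucc n =>
    rw [zpow_negSucc]
    exact (h.pow _).inv

theorem IsU.prod {ι : Type*} (T : Finset ι) (f : ι → F) (h : ∀ i ∈ T, IsU P (f i)) : IsU P (∏ i ∈ T, f i) := by
  classical
  induction T using Finset.induction_on with
  | empty =>
    rw [Finset.prod_empty]
    exact IsU.one
  | insert i T hi ih =>
    rw [Finset.prod_insert hi]
    exact (h i (Finset.mem_insert_self i T)).mul (ih fun l hl => h l (Finset.mem_insert_of_mem hl))

/-- a unit is in no `M i` -/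
theorem IsU.not_mem {x : F} (h : IsU P x) (i : Fin P.r) : x ∉ P.M i := fun hx =>
  P.not_one i (by
    have := P.ideal i x⁻¹ x h.2.2 hx
    rwa [inv_mul_cancel₀ h.2.1] at this)

/-- an element of `S` in no `M i` is a unit -/
theorem IsU.of {x : F} (hx : x ∈ P.S) (h : ∀ i, x ∉ P.M i) : IsU P x := ⟨hx, P.unit x hx h⟩

/-- a unit multiplied by an element of `M i` is in `M i`, and conversely -/
theorem IsU.mul_mem_iff {u : F} (hu : IsU P u) (i : Fin P.r) (x : F) : u * x ∈ P.M i ↔ x ∈ P.M i := by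
  constructor
  · intro h
    have := P.ideal i u⁻¹ _ hu.2.2 h
    rwa [inv_mul_cancel_left₀ hu.2.1] at this
  · intro h
    exact P.ideal i u x hu.1 h

end unit

/-- the same ring over a subfield -/
def SL.restr {k F : Type*} [Field k] [Field F] [Algebra k F] (P : SL k F) (K : Subfield k) : SL K F where
  S := P.S.restrictScalars K
  r := P.r
  M i := (P.M i).restrictScalars K
  one_mem := P.one_mem
  mul_mem := P.mul_mem
  ideal := P.ideal
  not_one := P.not_one
  unit := P.unit

theorem SL.isU_restr {k F : Type*} [Field k] [Field F] [Algebra k F] (P : SL k F) (K : Subfield k) (x : F) :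
    IsU (P.restr K) x ↔ IsU P x := Iff.rfl

section defs

variable {K F : Type*} [Field K] [Field F] [Algebra K F]

/-- Good families of units. -/
def GoodL (P : SL K F) (H W : Submodule K F) {ι : Type*} (X : ι → H) : Prop :=
  (∀ j, IsU P (X j : F)) ∧ Good H W X

/-- The functional kills the Steinberg symbols all of whose entries are units. -/
def StU (P : SL K F) {N : ℕ} (lam : (Additive Fˣ) [⋀^Fin N]→ₗ[ℤ] ℝ) : Prop :=
  ∀ (a : Fin N → Fˣ) (i j : Fin N), i ≠ j → (∀ l, IsU P (a l : F)) → (a i : F) + (a j : F) = 1 →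
    lam (fun l => Additive.ofMul (a l)) = 0

/-- For some order of the indices `1, …, N` all partial sums are units. -/
def ChainU (P : SL K F) {N : ℕ} (f : Fin (N + 1) → F) : Prop :=
  ∃ l : List (Fin N), l.Nodup ∧ (∀ j, j ∈ l) ∧
    ∀ t, 0 < t → t ≤ N → IsU P ((l.take t).map fun j => f j.succ).sum

/-- the good event -/
def GevL (P : SL K F) (H W : Submodule K F) {N : ℕ} (r : H) (v : Fin (N + 1) → Fin 3 → H) : Prop :=
  IsU P (r : F) ∧ (∀ j a, IsU P (v j a : F)) ∧ (∀ e, Cov H W Finset.univ (rest e v)) ∧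
    (∀ i c, Good H W (rtup r i c v)) ∧ ChainU P (fun j => ∏ a, (v j a : F))

/-- the lower bound for `card K` -/
def qL (r N D : ℕ) : ℕ :=
  2 * (N + 1) * ((N + 1) * 3 ^ (N + 1)) ^ 2 * (2 + (20 + 12 * r) * (N + 1) * 3 ^ (N + 1)) * D + 1

end defs

end Pool.Agent.MP_b197b4_ntLV
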