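import Mathlib

/-!
# LV, leaf LExt: alternating maps extend from a subgroup

PROOF. (1) By induction on `n`: for every injective `ι : B →ₗ[ℤ] A` every
`f : MultilinearMap ℤ (fun _ : Fin n => B) ℝ` is `g.compLinearMap (fun _ => ι)` for some
`g : MultilinearMap ℤ (fun _ : Fin n => A) ℝ`.  `n = 0`: constants.  `n + 1`: the restriction
`Res : Mult(A^n, ℝ) → Mult(B^n, ℝ)` is `ℝ`-linear and surjective by induction, so it has a linear right inverse
`s` (`LinearMap.exists_rightInverse_of_surjective`); `f.curryLeft : B →ₗ[ℤ] Mult(B^n, ℝ)`, `s ∘ f.curryLeft : B →ₗ[ℤ] Mult(A^n, ℝ)`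
extends to `A` because `Mult(A^n, ℝ)` is divisible (`Module.Baer.of_divisible`, `Module.Baer.extension_property`, see ntUV/FTor.lean);
uncurry.
(2) For alternating `lam`: `(1 / N!) • MultilinearMap.alternatization g`.
-/

set_option autoImplicit false

namespace Pool.Agent.MP_b197b4_ntLV

/-- real vector spaces are injective groups -/
private theorem LExt_baer (Q : Type*) [AddCommGroup Q] [Module ℝ Q] : Module.Baer ℤ Q := by
  let _ : DivisibleBy Q ℤ :=
    { div := fun q n => ((n : ℝ)⁻¹) • q
      div_zero := fun q => by simp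
      div_cancel := fun {n} q hn => by
        have h : (n : ℝ) ≠ 0 := by exact_mod_cast hn
        rw [← Int.cast_smul_eq_zsmul ℝ n, smul_smul, mul_inv_cancel₀ h, one_smul] }
  exact Module.Baer.of_divisible Q

private theorem LExt_mult {A B : Type*} [AddCommGroup A] [AddCommGroup B] (ι : B →ₗ[ℤ] A)
    (hι : Function.Injective ι) (n : ℕ) (f : MultilinearMap ℤ (fun _ : Fin n => B) ℝ) :
    ∃ g : MultilinearMap ℤ (fun _ : Fin n => A) ℝ, ∀ b : Fin n → B, g (fun i => ι (b i)) = f b := by
  induction n with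
  | zero =>
    refine ⟨MultilinearMap.constOfIsEmpty ℤ _ (f fun i => 0), fun b => ?_⟩
    rw [MultilinearMap.constOfIsEmpty_apply]
    have h : (fun _ => 0 : Fin 0 → B) = b := funext fun i => i.elim0
    rw [← h]
    rfl
  | succ n ih =>
    let Res : MultilinearMap ℤ (fun _ : Fin n => A) ℝ →ₗ[ℝ] MultilinearMap ℤ (fun _ : Fin n => B) ℝ :=
      { toFun := fun g => g.compLinearMap (fun _ => ι)
        map_add' := fun g g' => by
          ext b
          rfl
        map_smul' := fun c g => by
          ext b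
          rfl }
    have hsurj : LinearMap.range Res = ⊤ := by
      rw [LinearMap.range_eq_top]
      intro f'
      obtain ⟨g, hg⟩ := ih f'
      refine ⟨g, ?_⟩
      ext b
      exact hg b
    obtain ⟨s, hs⟩ := Res.exists_rightInverse_of_surjective hsurj
    obtain ⟨h', hh'⟩ := (LExt_baer (MultilinearMap ℤ (fun _ : Fin n => A) ℝ)).extension_property ι hι
      ((s.toAddMonoidHom.toIntLinearMap).comp f.curryLeft)
    refine ⟨LinearMap.uncurryLeft h', fun b => ?_⟩
    rw [LinearMap.uncurryLeft_apply]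
    have h1 : h' (ι (b 0)) = s (f.curryLeft (b 0)) := LinearMap.congr_fun hh' (b 0)
    have h2 : Res (s (f.curryLeft (b 0))) = f.curryLeft (b 0) := LinearMap.congr_fun hs _
    have h3 : (s (f.curryLeft (b 0))) (fun i => ι (b i.succ)) = (f.curryLeft (b 0)) (fun i => b i.succ) := by
      have h4 := congrArg (fun m => m (fun i => b i.succ)) h2
      exact h4
    have h5 : (h' (ι (b 0))) (Fin.tail fun i => ι (b i)) = f b := by
      rw [h1]
      refine h3.trans ?_
      rw [MultilinearMap.curryLeft_apply]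
      congr 1
      funext i
      refine Fin.cases ?_ (fun j => ?_) i
      · rfl
      · rfl
    exact h5

theorem LExt_alt {A B : Type*} [AddCommGroup A] [AddCommGroup B] (ι : B →ₗ[ℤ] A) (hι : Function.Injective ι)
    {N : ℕ} (lam : B [⋀^Fin N]→ₗ[ℤ] ℝ) :
    ∃ lam' : A [⋀^Fin N]→ₗ[ℤ] ℝ, ∀ b : Fin N → B, lam' (fun i => ι (b i)) = lam b := by
  obtain ⟨g, hg⟩ := LExt_mult ι hι N lam.toMultilinearMap
  refine ⟨((N.factorial : ℝ)⁻¹) • MultilinearMap.alternatization g, fun b => ?_⟩
  have h0 : (N.factorial : ℝ) ≠ 0 := by exact_mod_cast N.factorial_ne_zero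
  rw [AlternatingMap.smul_apply, MultilinearMap.alternatization_apply]
  have h1 : ∀ σ : Equiv.Perm (Fin N),
      Equiv.Perm.sign σ • (g.domDomCongr σ) (fun i => ι (b i)) = lam b := by
    intro σ
    rw [MultilinearMap.domDomCongr_apply, hg (fun i => b (σ i))]
    have h2 : lam.toMultilinearMap (fun i => b (σ i)) = Equiv.Perm.sign σ • lam b := lam.map_perm b σ
    rw [h2, smul_smul, Int.units_mul_self, one_smul]
  rw [Finset.sum_congr rfl fun σ _ => h1 σ, Finset.sum_const, Finset.card_univ, Fintype.card_perm,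
    Fintype.card_fin, nsmul_eq_mul, smul_eq_mul, ← mul_assoc, inv_mul_cancel₀ h0, one_mul]

end Pool.Agent.MP_b197b4_ntLV
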