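import Pool.Agent.Lib.MP_b197b4_ntLV.LDefs

/-!
# LV, leaf LRing: a semilocal domain is a semilocal subring of its field of fractions

`LRing_SL`: `S` = the range of `algebraMap R F`, as a `k`-subspace; `M i` = the images of the finitely many maximal ideals of `R`
(`Finite (MaximalSpectrum R)`, an equivalence with `Fin r`).  A unit of the structure is the image of a unit of `R`.
`LRing_trdeg`: `trdeg k R = trdeg k F` (`trdeg_add_eq`, `F` is algebraic over `R`), then `tdLt_of_trdeg_le` (ntUV/FLoc.lean, may be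
imported).
-/

set_option autoImplicit false

namespace Pool.Agent.MP_b197b4_ntLV

open Pool.Agent.MP_b197b4_ntUV

/-- the map as a linear map over `k` -/
private noncomputable def LRing_f (k R F : Type) [Field k] [CommRing R] [Field F] [Algebra k R] [Algebra R F]
    [Algebra k F] [IsScalarTower k R F] : R →ₗ[k] F := (IsScalarTower.toAlgHom k R F).toLinearMap

private theorem LRing_f_apply {k R F : Type} [Field k] [CommRing R] [Field F] [Algebra k R] [Algebra R F]
    [Algebra k F] [IsScalarTower k R F] (a : R) : LRing_f k R F a = algebraMap R F a := rfl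

theorem LRing_SL {k R F : Type} [Field k] [CommRing R] [IsDomain R] [Field F] [Algebra k R] [Algebra R F] [Algebra k F]
    [IsScalarTower k R F] [IsFractionRing R F] (hM : Finite (MaximalSpectrum R)) :
    ∃ P : SL k F, ∀ x : F, IsU P x ↔ ∃ u : Rˣ, algebraMap R F (u : R) = x := by
  obtain ⟨r, ⟨e⟩⟩ := hM.exists_equiv_fin
  have hinj : Function.Injective (algebraMap R F) := IsFractionRing.injective R F
  have hS : ∀ x : F, x ∈ LinearMap.range (LRing_f k R F) ↔ ∃ a : R, algebraMap R F a = x := by
    intro x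
    rfl
  have hMi : ∀ (i : Fin r) (x : F), x ∈ ((e.symm i).asIdeal.restrictScalars k).map (LRing_f k R F) ↔
      ∃ a ∈ (e.symm i).asIdeal, algebraMap R F a = x := by
    intro i x
    rfl
  let P : SL k F :=
    { S := LinearMap.range (LRing_f k R F)
      r := r
      M := fun i => ((e.symm i).asIdeal.restrictScalars k).map (LRing_f k R F)
      one_mem := (hS 1).2 ⟨1, map_one _⟩
      mul_mem := by
        intro x y hx hy
        obtain ⟨a, rfl⟩ := (hS x).1 hx
        obtain ⟨b, rfl⟩ := (hS y).1 hy
        exact (hS _).2 ⟨a * b, map_mul _ _ _⟩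
      ideal := by
        intro i x y hx hy
        obtain ⟨a, rfl⟩ := (hS x).1 hx
        obtain ⟨b, hb, rfl⟩ := (hMi i y).1 hy
        exact (hMi i _).2 ⟨a * b, Ideal.mul_mem_left _ _ hb, map_mul _ _ _⟩
      not_one := by
        intro i h
        obtain ⟨a, ha, h1⟩ := (hMi i 1).1 h
        have h2 : a = 1 := hinj (h1.trans (map_one _).symm)
        rw [h2] at ha
        exact (e.symm i).isMaximal.ne_top ((Ideal.eq_top_iff_one _).2 ha)
      unit := by
        intro x hx h
        obtain ⟨a, rfl⟩ := (hS x).1 hx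
        have hu : IsUnit a := by
          by_contra hu
          obtain ⟨m, hm, ham⟩ := exists_max_ideal_of_mem_nonunits hu
          refine h (e ⟨m, hm⟩) ((hMi _ _).2 ⟨a, ?_, rfl⟩)
          rw [e.symm_apply_apply]
          exact ham
        obtain ⟨u, rfl⟩ := hu
        have h0 : algebraMap R F (u : R) ≠ 0 := by
          intro h0
          exact u.ne_zero (hinj (h0.trans (map_zero _).symm))
        refine ⟨h0, (hS _).2 ⟨((u⁻¹ : Rˣ) : R), ?_⟩⟩
        refine eq_inv_of_mul_eq_one_left ?_
        rw [← map_mul, Units.inv_mul, map_one] }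
  refine ⟨P, fun x => ⟨?_, ?_⟩⟩
  · rintro ⟨h1, h0, h2⟩
    obtain ⟨a, rfl⟩ := (hS x).1 h1
    obtain ⟨b, hb⟩ := (hS _).1 h2
    have hab : a * b = 1 := by
      apply hinj
      rw [map_mul, hb, map_one, mul_inv_cancel₀ h0]
    exact ⟨⟨a, b, hab, by rw [mul_comm]; exact hab⟩, rfl⟩
  · rintro ⟨u, rfl⟩
    have h0 : algebraMap R F (u : R) ≠ 0 := by
      intro h0
      exact u.ne_zero (hinj (h0.trans (map_zero _).symm))
    refine ⟨(hS _).2 ⟨u, rfl⟩, h0, (hS _).2 ⟨((u⁻¹ : Rˣ) : R), ?_⟩⟩
    refine eq_inv_of_mul_eq_one_left ?_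
    rw [← map_mul, Units.inv_mul, map_one]

theorem LRing_trdeg {k R F : Type} [Field k] [CommRing R] [IsDomain R] [Field F] [Algebra k R] [Algebra R F]
    [Algebra k F] [IsScalarTower k R F] [IsFractionRing R F] {n : ℕ} (h : Algebra.trdeg k R ≤ n) :
    Algebra.trdeg k F ≤ n := by
  have h1 : FaithfulSMul k R := inferInstance
  have h2 : FaithfulSMul R F := inferInstance
  have h3 : Algebra.IsAlgebraic R F := IsLocalization.isAlgebraic F (nonZeroDivisors R)
  have h4 := _root_.trdeg_add_eq k R (A := F)
  rw [_root_.trdeg_eq_zero (R := R) (A := F), add_zero] at h4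
  rw [← h4]
  exact h

end Pool.Agent.MP_b197b4_ntLV
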