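import Pool.Agent.Lib.MP_b197b4_ntLV.LCount

/-!
# LV, leaf LK2: the event that one variable is not a unit

Copy of `K2_zero` (ntUV/K2.lean; its private lemmas have to be copied too), with the event `(v j0 a0 : F) ∈ P.M i0` in place of
`v j0 a0 = 0`.  If `j0 ≠ i`, `a0 = c j0` it is empty: `v0 j0 (c j0)` is an entry of the good family of units
(`K0_rtup`, `K0_emb_surj`), `IsU.not_mem`.  Otherwise as in `K2_zero`; the number of the points with
`(v j0 a0 : F) ∈ P.M i0`, multiplied by `card K`, is at most `card H ^ (3 (N+1))`: `LC_fiber` with `Sm = True`, `q = card K`, and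
`LC_coset` with `rho = 1`, `s = 0` (`H` contains the unit `r`).
-/

set_option autoImplicit false

namespace Pool.Agent.MP_b197b4_ntLV

open scoped BigOperators
open Pool.Agent.MP_b197b4_ntUV

variable {K F : Type*} [Field K] [Field F] [Algebra K F] {H : Submodule K F} {N : ℕ}

/-- three disjoint sets: two of them avoid a given point, and the first also another point -/
theorem LK2_pick2 {α : Type*} (I : Fin 3 → Finset α) (hd : ∀ a b, a ≠ b → Disjoint (I a) (I b))
    (x y : α) : ∃ a b, a ≠ b ∧ x ∉ I a ∧ x ∉ I b ∧ y ∉ I a := by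
  have key : ∀ (z : α) (a b : Fin 3), a ≠ b → z ∈ I a → z ∉ I b := fun z a b hab h1 h2 =>
    Finset.disjoint_left.mp (hd a b hab) h1 h2
  have h2 : ∀ a b : Fin 3, a ≠ b → x ∉ I a → x ∉ I b →
      ∃ a b, a ≠ b ∧ x ∉ I a ∧ x ∉ I b ∧ y ∉ I a := by
    intro a b hab ha hb
    by_cases hy : y ∈ I a
    · exact ⟨b, a, hab.symm, hb, ha, key y a b hab hy⟩
    · exact ⟨a, b, hab, ha, hb, hy⟩
  have e01 : (0 : Fin 3) ≠ 1 := by decide
  have e02 : (0 : Fin 3) ≠ 2 := by decide
  have e12 : (1 : Fin 3) ≠ 2 := by decide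
  by_cases h : x ∈ I 0
  · exact h2 1 2 e12 (key _ _ _ e01 h) (key _ _ _ e02 h)
  · by_cases h' : x ∈ I 1
    · exact h2 0 2 e02 h (key _ _ _ e12 h')
    · exact h2 0 1 e01 h h'

/-- rows of a set of indices -/
noncomputable def LK2_rows (I : Finset (Option (Fin (N + 1)))) : Finset (Fin (N + 1)) := by
  classical
  exact Finset.univ.filter (fun j : Fin (N + 1) => some j ∈ I)

theorem LK2_mem_rows (I : Finset (Option (Fin (N + 1)))) (j : Fin (N + 1)) :
    j ∈ LK2_rows I ↔ some j ∈ I := by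
  classical
  simp [LK2_rows]

/-- `K1_rest` with `i' = i` -/
theorem LK2_rest [Fintype K] (H W : Submodule K F) [Fintype H] [Finite W]
    (hW : ∀ a b c : H, (a : F) * (b : F) * (c : F) ∈ W)
    (r : H) (i : Fin (N + 1)) (c e' : Fin (N + 1) → Fin 3) (v0 : Fin (N + 1) → Fin 3 → H)
    (y : Option (Fin (N + 1)) → H) (I : Finset (Option (Fin (N + 1)))) (hi : some i ∉ I) (hn : none ∉ I)
    (hI : Cov H W I (fun o => (otup r c v0 o : F) * (y o : F))) :
    Nat.card {v : Fin (N + 1) → Fin 3 → H // (∀ j, j ≠ i → v j (c j) = v0 j (c j)) ∧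
        ¬ Cov H W (LK2_rows I) (rest e' v)} * Fintype.card K * Fintype.card H ^ N
      ≤ 2 * Module.finrank K W * Fintype.card H ^ (3 * (N + 1)) := by
  have h := K1_rest H W hW r i i c e' v0 y I hi hn hI
  have hJ : (Finset.univ.filter (fun j : Fin (N + 1) => Equiv.swap (some i) (some i) (some j) ∈ I)) =
      LK2_rows I := by
    ext j
    rw [LK2_mem_rows]
    simp
  rw [hJ] at h
  exact h

theorem LK2_unit [Fintype K] (P : SL K F) (H W : Submodule K F) [Fintype H] [Finite W]
    (hW : ∀ a b c : H, (a : F) * (b : F) * (c : F) ∈ W)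
    (r : H) (i : Fin (N + 1)) (c e : Fin (N + 1) → Fin 3) (he : ∀ j, e j ≠ c j)
    (v0 : Fin (N + 1) → Fin 3 → H) (hv0 : GoodL P H W (rtup r i c v0))
    (j0 : Fin (N + 1)) (a0 : Fin 3) (i0 : Fin P.r) :
    Nat.card W * Nat.card {v : Fin (N + 1) → Fin 3 → H // (∀ j, j ≠ i → v j (c j) = v0 j (c j)) ∧
        fsum v = 0 ∧ Cov H W Finset.univ (rest e v) ∧ (v j0 a0 : F) ∈ P.M i0} *
        Fintype.card K * Fintype.card H ^ N
      ≤ 3 * Module.finrank K W * Fintype.card H ^ (3 * (N + 1)) := by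
  classical
  obtain ⟨hU, hgood⟩ := hv0
  have hUo : ∀ o, o ≠ some i → IsU P ((otup r c v0 o : H) : F) := by
    intro o ho
    obtain ⟨j, hj⟩ := K0_emb_surj i o ho
    have h1 := hU j
    rw [K0_rtup, hj] at h1
    exact h1
  obtain ⟨hne, y, I, hdis, hav, hcov⟩ := (K0_good_iff H W r i c v0).mp hgood
  by_cases hc : j0 ≠ i ∧ a0 = c j0
  · -- the set is empty
    have hempty : IsEmpty {v : Fin (N + 1) → Fin 3 → H // (∀ j, j ≠ i → v j (c j) = v0 j (c j)) ∧
        fsum v = 0 ∧ Cov H W Finset.univ (rest e v) ∧ (v j0 a0 : F) ∈ P.M i0} := by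
      refine ⟨fun ⟨v, h1, _, _, h4⟩ => ?_⟩
      rw [hc.2, h1 j0 hc.1] at h4
      exact (hUo (some j0) (fun hh => hc.1 (Option.some_injective _ hh))).not_mem i0 h4
    rw [Nat.card_of_isEmpty (α := {v : Fin (N + 1) → Fin 3 → H // (∀ j, j ≠ i → v j (c j) = v0 j (c j)) ∧
        fsum v = 0 ∧ Cov H W Finset.univ (rest e v) ∧ (v j0 a0 : F) ∈ P.M i0})]
    simp
  · obtain ⟨a, -, -, ha1, -, ha2⟩ := LK2_pick2 I hdis none (some j0)
    have hrU : IsU P (r : F) := hUo none (by simp)
    have hr : (r : F) ≠ 0 := hrU.ne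
    -- `1 ≤ finrank W`
    have hfin : Module.Finite K W := Module.Finite.of_finite
    have hW1 : 1 ≤ Module.finrank K W := by
      have hr' : ((r : F) * r * r) ≠ 0 := mul_ne_zero (mul_ne_zero hr hr) hr
      have : Nontrivial W := ⟨⟨⟨(r : F) * r * r, hW r r r⟩, 0, by
        intro hh
        exact hr' (congrArg Subtype.val hh)⟩⟩
      exact Module.finrank_pos
    have h1 := K0_tool H W hW i c e he v0 (LK2_rows (I a)) (fun v => (v j0 a0 : F) ∈ P.M i0) (by
      intro v v' hvv
      have : v j0 a0 = v' j0 a0 := by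
        refine hvv j0 a0 ?_
        intro hj
        exact absurd ((LK2_mem_rows _ _).mp hj) ha2
      simp only [this])
    have h2 := LK2_rest H W hW r i c e v0 y (I a) (hav a) ha1 (hcov a)
    have h3 := K0_fix i c v0 (fun v : Fin (N + 1) → Fin 3 → H => (v j0 a0 : F) ∈ P.M i0) (by
      intro v v' hvv
      have : v j0 a0 = v' j0 a0 := hvv j0 a0 hc
      simp only [this])
    -- the number of points in the event
    have h4 : Nat.card {v : Fin (N + 1) → Fin 3 → H // (v j0 a0 : F) ∈ P.M i0} * Fintype.card K ≤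
        Fintype.card H ^ (3 * (N + 1)) := by
      have hco := LC_coset P H ⟨r, hrU⟩ i0 1 0 IsU.one
      have hfib := LC_fiber (H := H) j0 a0 (fun _ => True)
        (fun v : Fin (N + 1) → Fin 3 → H => (v j0 a0 : F) ∈ P.M i0) (Fintype.card K)
        (fun _ _ => Iff.rfl) (by
          intro v
          refine le_trans (le_of_eq ?_) hco
          congr 1
          refine Nat.card_congr (Equiv.subtypeEquivRight fun x => ?_)
          rw [one_mul, add_zero]
          simp [put])
      have e1 : Nat.card {v : Fin (N + 1) → Fin 3 → H // True ∧ (v j0 a0 : F) ∈ P.M i0} =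
          Nat.card {v : Fin (N + 1) → Fin 3 → H // (v j0 a0 : F) ∈ P.M i0} :=
        Nat.card_congr (Equiv.subtypeEquivRight fun v => by rw [true_and])
      have e2 : Nat.card {v : Fin (N + 1) → Fin 3 → H // True} = Fintype.card H ^ (3 * (N + 1)) := by
        rw [Nat.card_congr (Equiv.subtypeUnivEquiv (fun _ => trivial)), Nat.card_fun, Nat.card_fun,
          Nat.card_eq_fintype_card (α := Fin 3), Fintype.card_fin,
          Nat.card_eq_fintype_card (α := Fin (N + 1)), Fintype.card_fin, ← pow_mul,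
          Nat.card_eq_fintype_card (α := H)]
      rw [e1, e2] at hfib
      exact hfib
    set A := Nat.card {v : Fin (N + 1) → Fin 3 → H // (∀ j, j ≠ i → v j (c j) = v0 j (c j)) ∧
        fsum v = 0 ∧ Cov H W Finset.univ (rest e v) ∧ (v j0 a0 : F) ∈ P.M i0}
    set B := Nat.card {v : Fin (N + 1) → Fin 3 → H // (∀ j, j ≠ i → v j (c j) = v0 j (c j)) ∧
        ¬ Cov H W (LK2_rows (I a)) (rest e v)}
    set C := Nat.card {v : Fin (N + 1) → Fin 3 → H // (∀ j, j ≠ i → v j (c j) = v0 j (c j)) ∧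
        (v j0 a0 : F) ∈ P.M i0}
    set D := Nat.card {v : Fin (N + 1) → Fin 3 → H // (v j0 a0 : F) ∈ P.M i0}
    have h5 : C * Fintype.card K * Fintype.card H ^ N ≤ Fintype.card H ^ (3 * (N + 1)) := by
      calc C * Fintype.card K * Fintype.card H ^ N = (C * Fintype.card H ^ N) * Fintype.card K := by ring
        _ = D * Fintype.card K := by rw [h3]
        _ ≤ _ := h4
    calc Nat.card W * A * Fintype.card K * Fintype.card H ^ N
        ≤ (B + C) * Fintype.card K * Fintype.card H ^ N := by gcongr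
      _ = B * Fintype.card K * Fintype.card H ^ N + C * Fintype.card K * Fintype.card H ^ N := by ring
      _ ≤ 2 * Module.finrank K W * Fintype.card H ^ (3 * (N + 1)) + 1 * Fintype.card H ^ (3 * (N + 1)) := by
          rw [one_mul]
          exact Nat.add_le_add h2 h5
      _ ≤ 2 * Module.finrank K W * Fintype.card H ^ (3 * (N + 1)) +
            Module.finrank K W * Fintype.card H ^ (3 * (N + 1)) := by gcongr
      _ = 3 * Module.finrank K W * Fintype.card H ^ (3 * (N + 1)) := by ring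

end Pool.Agent.MP_b197b4_ntLV
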