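import Pool.Agent.Lib.MP_b197b4_ntLV.LK5
import Pool.Agent.Lib.MP_b197b4_ntUV.K4

/-!
# LV, leaf LK4: the good event

Copy of `K4_two` (ntUV/K4.lean, also the private `K4_union`, now with four kinds of events): the event `¬ GevL` implies one of
* `(v j0 a0 : F) ∈ P.M i0` for some `j0, a0, i0` (`LK2_unit`, `3 (N+1) P.r` events; an element of `H ≤ P.S` in no `M i0` is a unit,
  `IsU.of`);
* `¬ Cov univ (rest e' v)` (`K2_cov`, `3^(N+1)` events);
* all `v j a` are units (so `≠ 0`) and `¬ Good (rtup r i' c' v)` (`K3_good`, `(N+1) 3^(N+1)` events);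
* all `v j a` are units and the partial sum `t` of the list `l` of `LK5_chain` is in `P.M i0` (`N P.r` events, `t = τ + 1`,
  `τ : Fin N`).
Sum: `9 (N+1) P.r + 4 * 3^(N+1) + 12 (N+1) 3^(N+1) + 3 N P.r ≤ (20 + 12 P.r) (N+1) 3^(N+1)`.
-/

set_option autoImplicit false

namespace Pool.Agent.MP_b197b4_ntLV

open scoped BigOperators
open Pool.Agent.MP_b197b4_ntUV

variable {K F : Type*} [Field K] [Field F] [Algebra K F] {H : Submodule K F} {N : ℕ}

private theorem LK4_or {α : Type*} [Fintype α] (s p q : α → Prop) (h : ∀ v, s v → p v ∨ q v)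
    (M X Y : ℕ) (hp : M * Nat.card {v // p v} ≤ X) (hq : M * Nat.card {v // q v} ≤ Y) :
    M * Nat.card {v // s v} ≤ X + Y := by
  classical
  have hc : ∀ t : α → Prop, Nat.card {v // t v} = (Finset.univ.filter t).card := by
    intro t
    rw [Nat.card_eq_fintype_card, Fintype.card_subtype]
  have h1 : Finset.univ.filter s ⊆ Finset.univ.filter p ∪ Finset.univ.filter q := by
    intro v hv
    rcases h v (Finset.mem_filter.1 hv).2 with h2 | h2
    · exact Finset.mem_union_left _ (Finset.mem_filter.2 ⟨Finset.mem_univ v, h2⟩)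
    · exact Finset.mem_union_right _ (Finset.mem_filter.2 ⟨Finset.mem_univ v, h2⟩)
  have h2 := (Finset.card_le_card h1).trans (Finset.card_union_le _ _)
  rw [hc] at hp hq ⊢
  calc M * (Finset.univ.filter s).card ≤
      M * ((Finset.univ.filter p).card + (Finset.univ.filter q).card) := Nat.mul_le_mul_left M h2
    _ = M * (Finset.univ.filter p).card + M * (Finset.univ.filter q).card := Nat.mul_add _ _ _
    _ ≤ X + Y := Nat.add_le_add hp hq

private theorem LK4_ex {α : Type*} [Fintype α] {ι : Type} [Fintype ι] (p : ι → α → Prop)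
    (M X : ℕ) (hp : ∀ a, M * Nat.card {v // p a v} ≤ X) :
    M * Nat.card {v // ∃ a, p a v} ≤ Fintype.card ι * X := by
  classical
  have hc : ∀ t : α → Prop, Nat.card {v // t v} = (Finset.univ.filter t).card := by
    intro t
    rw [Nat.card_eq_fintype_card, Fintype.card_subtype]
  obtain ⟨s, hs⟩ : ∃ s : α → Prop, s = fun v => ∃ a, p a v := ⟨_, rfl⟩
  rw [← hs, hc]
  have h1 : Finset.univ.filter s ⊆
      (Finset.univ : Finset ι).biUnion fun a => Finset.univ.filter (p a) := by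
    intro v hv
    have h3 := (Finset.mem_filter.1 hv).2
    rw [hs] at h3
    obtain ⟨a, ha⟩ := h3
    exact Finset.mem_biUnion.2 ⟨a, Finset.mem_univ a, Finset.mem_filter.2 ⟨Finset.mem_univ v, ha⟩⟩
  have h2 := (Finset.card_le_card h1).trans Finset.card_biUnion_le
  calc M * (Finset.univ.filter s).card ≤
      M * ∑ a, (Finset.univ.filter (p a)).card := Nat.mul_le_mul_left M h2
    _ = ∑ a, M * (Finset.univ.filter (p a)).card := Finset.mul_sum _ _ _
    _ ≤ ∑ _a : ι, X := Finset.sum_le_sum fun a _ => by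
        rw [← hc]
        exact hp a
    _ = Fintype.card ι * X := by rw [Finset.sum_const, smul_eq_mul, Finset.card_univ]

theorem LK4_two [Fintype K] (P : SL K F) (H W : Submodule K F) [Fintype H] [Finite W] (hHS : H ≤ P.S)
    (hW : ∀ a b c : H, (a : F) * (b : F) * (c : F) ∈ W)
    (r : H) (i : Fin (N + 1)) (c e : Fin (N + 1) → Fin 3) (he : ∀ j, e j ≠ c j)
    (v0 : Fin (N + 1) → Fin 3 → H) (hv0 : GoodL P H W (rtup r i c v0)) :
    Nat.card W * Nat.card {v : Fin (N + 1) → Fin 3 → H // (∀ j, j ≠ i → v j (c j) = v0 j (c j)) ∧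
        fsum v = 0 ∧ Cov H W Finset.univ (rest e v) ∧ ¬ GevL P H W r v} *
        Fintype.card K * Fintype.card H ^ N
      ≤ (20 + 12 * P.r) * (N + 1) * 3 ^ (N + 1) * Module.finrank K W * Fintype.card H ^ (3 * (N + 1)) := by
  classical
  obtain ⟨l, hl1, hl2, hl3⟩ := LK5_chain P H W hW r i c e he v0 hv0
  have hr : IsU P (r : F) := by
    obtain ⟨j, hj⟩ := K0_emb_surj i none (by simp)
    have h1 := hv0.1 j
    rw [K0_rtup, hj] at h1
    exact h1
  set f := Module.finrank K W with hf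
  set U := Fintype.card H ^ (3 * (N + 1)) with hU
  set M := Nat.card W * Fintype.card K * Fintype.card H ^ N with hM
  have hmul : ∀ n : ℕ, Nat.card W * n * Fintype.card K * Fintype.card H ^ N = M * n := by
    intro n
    rw [hM]
    ring
  -- the four kinds of events
  let p1 : Fin (N + 1) × Fin 3 × Fin P.r → (Fin (N + 1) → Fin 3 → H) → Prop := fun q v =>
    (∀ j, j ≠ i → v j (c j) = v0 j (c j)) ∧ fsum v = 0 ∧ Cov H W Finset.univ (rest e v) ∧
      (v q.1 q.2.1 : F) ∈ P.M q.2.2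
  let p2 : (Fin (N + 1) → Fin 3) → (Fin (N + 1) → Fin 3 → H) → Prop := fun e' v =>
    (∀ j, j ≠ i → v j (c j) = v0 j (c j)) ∧ fsum v = 0 ∧ Cov H W Finset.univ (rest e v) ∧
      ¬ Cov H W Finset.univ (rest e' v)
  let p3 : Fin (N + 1) × (Fin (N + 1) → Fin 3) → (Fin (N + 1) → Fin 3 → H) → Prop := fun q v =>
    (∀ j, j ≠ i → v j (c j) = v0 j (c j)) ∧ fsum v = 0 ∧ Cov H W Finset.univ (rest e v) ∧
      (∀ j a, v j a ≠ 0) ∧ ¬ Good H W (rtup r q.1 q.2 v)
  let p4 : Fin N × Fin P.r → (Fin (N + 1) → Fin 3 → H) → Prop := fun q v =>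
    (∀ j, j ≠ i → v j (c j) = v0 j (c j)) ∧ fsum v = 0 ∧ Cov H W Finset.univ (rest e v) ∧
      (∀ j a, IsU P (v j a : F)) ∧
        ((l.take ((q.1 : ℕ) + 1)).map fun j => ∏ a, (v j.succ a : F)).sum ∈ P.M q.2
  have b1 : M * Nat.card {v // ∃ q, p1 q v} ≤ Fintype.card (Fin (N + 1) × Fin 3 × Fin P.r) *
      (3 * f * U) := by
    refine LK4_ex p1 M _ fun q => ?_
    rw [← hmul]
    exact LK2_unit P H W hW r i c e he v0 hv0 q.1 q.2.1 q.2.2
  have b2 : M * Nat.card {v // ∃ q, p2 q v} ≤ Fintype.card (Fin (N + 1) → Fin 3) *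
      (4 * f * U) := by
    refine LK4_ex p2 M _ fun q => ?_
    rw [← hmul]
    exact K2_cov H W hW r i c e q he v0 hv0.2
  have b3 : M * Nat.card {v // ∃ q, p3 q v} ≤ Fintype.card (Fin (N + 1) × (Fin (N + 1) → Fin 3)) *
      (12 * f * U) := by
    refine LK4_ex p3 M _ fun q => ?_
    rw [← hmul]
    exact K3_good H W hW r i q.1 c q.2 e he v0 hv0.2
  have b4 : M * Nat.card {v // ∃ q, p4 q v} ≤ Fintype.card (Fin N × Fin P.r) *
      (3 * f * U) := by
    refine LK4_ex p4 M _ fun q => ?_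
    rw [← hmul]
    exact hl3 _ (Nat.succ_pos _) q.1.2 q.2
  have hall := LK4_or (fun v : Fin (N + 1) → Fin 3 → H => (∀ j, j ≠ i → v j (c j) = v0 j (c j)) ∧
        fsum v = 0 ∧ Cov H W Finset.univ (rest e v) ∧ ¬ GevL P H W r v)
    (fun v => (∃ q, p1 q v) ∨ ∃ q, p2 q v) (fun v => (∃ q, p3 q v) ∨ ∃ q, p4 q v) (by
      rintro v ⟨h1, h2, h3, h4⟩
      by_cases h5 : ∀ j a, IsU P (v j a : F)
      · by_cases h6 : ∀ e, Cov H W Finset.univ (rest e v)
        · by_cases h7 : ∀ i c, Good H W (rtup r i c v)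
          · have h8 : ¬ ChainU P (fun j => ∏ a, (v j a : F)) := fun h9 => h4 ⟨hr, h5, h6, h7, h9⟩
            refine Or.inr (Or.inr ?_)
            by_contra h9
            apply h8
            refine ⟨l, hl1, hl2, fun t ht ht' => ?_⟩
            refine IsU.of ?_ fun i0 hi0 => h9 ?_
            · have h10 : ∀ l' : List (Fin N), (l'.map fun j => ∏ a, (v j.succ a : F)).sum ∈ P.S := by
                intro l'
                refine list_sum_mem fun x hx => ?_
                obtain ⟨j, _, rfl⟩ := List.mem_map.1 hx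
                exact (IsU.prod Finset.univ (fun a => (v j.succ a : F)) fun a _ => h5 _ _).1
              exact h10 _
            · obtain ⟨t', rfl⟩ : ∃ t', t = t' + 1 := ⟨t - 1, by omega⟩
              exact ⟨(⟨t', ht'⟩, i0), h1, h2, h3, h5, hi0⟩
          · obtain ⟨i', h8⟩ := not_forall.1 h7
            obtain ⟨c', h9⟩ := not_forall.1 h8
            refine Or.inr (Or.inl ⟨(i', c'), h1, h2, h3, fun j a h10 => (h5 j a).2.1 ?_, h9⟩)
            rw [h10]
            rfl
        · obtain ⟨e', h7⟩ := not_forall.1 h6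
          exact Or.inl (Or.inr ⟨e', h1, h2, h3, h7⟩)
      · obtain ⟨j, h6⟩ := not_forall.1 h5
        obtain ⟨a, h7⟩ := not_forall.1 h6
        have h8 : ∃ i0, (v j a : F) ∈ P.M i0 := by
          by_contra h9
          exact h7 (IsU.of (hHS (v j a).2) fun i0 hi0 => h9 ⟨i0, hi0⟩)
        obtain ⟨i0, h9⟩ := h8
        exact Or.inl (Or.inl ⟨(j, a, i0), h1, h2, h3, h9⟩)) M _ _
    (LK4_or _ _ _ (fun _ h => h) M _ _ b1 b2) (LK4_or _ _ _ (fun _ h => h) M _ _ b3 b4)
  rw [hmul]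
  refine hall.trans ?_
  have h2 : Fintype.card (Fin (N + 1) × Fin 3 × Fin P.r) = (N + 1) * (3 * P.r) := by simp
  have h3 : Fintype.card (Fin (N + 1) → Fin 3) = 3 ^ (N + 1) := by simp
  have h4 : Fintype.card (Fin (N + 1) × (Fin (N + 1) → Fin 3)) = (N + 1) * 3 ^ (N + 1) := by simp
  have h4' : Fintype.card (Fin N × Fin P.r) = N * P.r := by simp
  rw [h2, h3, h4, h4']
  have h5 : 3 ≤ 3 ^ (N + 1) := by
    calc 3 = 3 ^ 1 := (pow_one 3).symm
      _ ≤ 3 ^ (N + 1) := Nat.pow_le_pow_right (by norm_num) (by omega)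
  generalize 3 ^ (N + 1) = T at h5 ⊢
  generalize P.r = ρ
  have e1 : (N + 1) * (3 * ρ) * 3 + N * ρ * 3 ≤ 12 * ρ * (N + 1) * T := by
    calc (N + 1) * (3 * ρ) * 3 + N * ρ * 3 ≤ (N + 1) * (3 * ρ) * 3 + (N + 1) * ρ * 3 := by
          gcongr
          omega
      _ = 4 * ρ * (N + 1) * 3 := by ring
      _ ≤ 12 * ρ * (N + 1) * T := by
          gcongr
          omega
  have e2 : T * 4 + (N + 1) * T * 12 ≤ 20 * (N + 1) * T := by nlinarith
  have h6 : (N + 1) * (3 * ρ) * 3 + T * 4 + ((N + 1) * T * 12 + N * ρ * 3) ≤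
      (20 + 12 * ρ) * (N + 1) * T := by
    have e3 : (20 + 12 * ρ) * (N + 1) * T = 20 * (N + 1) * T + 12 * ρ * (N + 1) * T := by ring
    rw [e3]
    omega
  calc (N + 1) * (3 * ρ) * (3 * f * U) + T * (4 * f * U) +
      ((N + 1) * T * (12 * f * U) + N * ρ * (3 * f * U)) =
        ((N + 1) * (3 * ρ) * 3 + T * 4 + ((N + 1) * T * 12 + N * ρ * 3)) * (f * U) := by ring
    _ ≤ (20 + 12 * ρ) * (N + 1) * T * (f * U) := Nat.mul_le_mul_right _ h6
    _ = (20 + 12 * ρ) * (N + 1) * T * f * U := by ring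

end Pool.Agent.MP_b197b4_ntLV
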