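import Pool.Agent.Lib.MP_b197b4_ntLV.LK2

/-!
# LV, leaf LK5: the event that a partial sum is not a unit

`LK5_sum`: `J` a nonempty set of rows which does not meet the witness set `I`.  Let `j0 ∈ J`, and `E v` the event
`IsU P (rest e v j0) ∧ ∑ j ∈ J, ∏ a, v j a ∈ P.M i0`, which only sees the rows of `J`.  `K0_tool` (ntUV/K0.lean) with the set of rows
`LK2_rows I`: the first term is bounded by `LK2_rest`; the second: `LC_fiber` with the variable `(j0, e j0)`
(`Sm v = ∀ j, j ≠ i → v j (c j) = v0 j (c j)` does not see it because `e j0 ≠ c j0`), `q = card K`, `LC_coset` with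
`rho = rest e v j0` (does not depend on `v j0 (e j0)`; if it is not a unit the fibre is empty),
`s = ∑ j ∈ J.erase j0, ∏ a, v j a`: `∑ j ∈ J, ∏ a, v j a = rho * x + s`; and the number of the `v` with `Sm v` multiplied by
`card H ^ N` is `card H ^ (3 (N+1))` (`K0_fix` with `E = True`).  `1 ≤ finrank W` as in `K2_zero` (`r` is a unit).

`LK5_chain`: two witness sets `I1`, `I2` avoid `none`, and `I1` avoids `some 0` (`LK2_pick2`, `K0_good_iff`).  `l` = a list of the
`j : Fin N` such that the `j` with `some j.succ ∈ I1` come first (e.g. `(univ.filter ..).toList ++ (univ.filter (¬ ..)).toList`).  Let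
`J` be the set of the rows `j.succ`, `j ∈ l.take t`.  Either `J` is contained in the rows of `I1`, then `LK5_sum` for `J` and `I2`;
or it contains the rows of `I1`, then the complement `Jc` (which contains `0`) does not meet `I1`, and the sum over `J` is minus the
sum over `Jc` (`fsum v = 0`): `LK5_sum` for `Jc` and `I1`.
-/

set_option autoImplicit false

namespace Pool.Agent.MP_b197b4_ntLV

open scoped BigOperators
open Pool.Agent.MP_b197b4_ntUV

variable {K F : Type*} [Field K] [Field F] [Algebra K F] {H : Submodule K F} {N : ℕ}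

private theorem LK5_mono {α : Type*} [Finite α] {p q : α → Prop} (h : ∀ x, p x → q x) :
    Nat.card {x : α // p x} ≤ Nat.card {x : α // q x} :=
  Nat.card_le_card_of_injective (Subtype.map id h) (Subtype.map_injective h Function.injective_id)

private theorem LK5_put_same (j0 : Fin (N + 1)) (a0 : Fin 3) (v : Fin (N + 1) → Fin 3 → H) (x : H) :
    put j0 a0 v x j0 a0 = x := by
  unfold put
  rw [Function.update_self, Function.update_self]

private theorem LK5_put_row (j0 : Fin (N + 1)) (a0 : Fin 3) (v : Fin (N + 1) → Fin 3 → H) (x : H)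
    (a : Fin 3) (ha : a ≠ a0) : put j0 a0 v x j0 a = v j0 a := by
  unfold put
  rw [Function.update_self, Function.update_of_ne ha]

private theorem LK5_put_ne (j0 : Fin (N + 1)) (a0 : Fin 3) (v : Fin (N + 1) → Fin 3 → H) (x : H)
    (j : Fin (N + 1)) (hj : j ≠ j0) : put j0 a0 v x j = v j := by
  unfold put
  rw [Function.update_of_ne hj]

private theorem LK5_prod (e : Fin (N + 1) → Fin 3) (v : Fin (N + 1) → Fin 3 → H) (j : Fin (N + 1)) :
    ∏ a, (v j a : F) = rest e v j * (v j (e j) : F) := by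
  rw [← Finset.mul_prod_erase Finset.univ _ (Finset.mem_univ (e j)), mul_comm]
  rfl

theorem LK5_sum [Fintype K] (P : SL K F) (H W : Submodule K F) [Fintype H] [Finite W]
    (hW : ∀ a b c : H, (a : F) * (b : F) * (c : F) ∈ W)
    (r : H) (i : Fin (N + 1)) (c e : Fin (N + 1) → Fin 3) (he : ∀ j, e j ≠ c j)
    (v0 : Fin (N + 1) → Fin 3 → H) (hr : IsU P (r : F))
    (y : Option (Fin (N + 1)) → H) (I : Finset (Option (Fin (N + 1)))) (hi : some i ∉ I) (hn : none ∉ I)
    (hI : Cov H W I (fun o => (otup r c v0 o : F) * (y o : F)))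
    (J : Finset (Fin (N + 1))) (hJ : J.Nonempty) (hJI : ∀ j ∈ J, some j ∉ I) (i0 : Fin P.r) :
    Nat.card W * Nat.card {v : Fin (N + 1) → Fin 3 → H // (∀ j, j ≠ i → v j (c j) = v0 j (c j)) ∧
        fsum v = 0 ∧ Cov H W Finset.univ (rest e v) ∧ (∀ j a, IsU P (v j a : F)) ∧
        ∑ j ∈ J, ∏ a, (v j a : F) ∈ P.M i0} * Fintype.card K * Fintype.card H ^ N
      ≤ 3 * Module.finrank K W * Fintype.card H ^ (3 * (N + 1)) := by
  classical
  obtain ⟨j0, hj0⟩ := hJ
  -- the event
  let E : (Fin (N + 1) → Fin 3 → H) → Prop := fun v =>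
    IsU P (rest e v j0) ∧ ∑ j ∈ J, ∏ a, (v j a : F) ∈ P.M i0
  let Sm : (Fin (N + 1) → Fin 3 → H) → Prop := fun v => ∀ j, j ≠ i → v j (c j) = v0 j (c j)
  have hE : ∀ v v' : Fin (N + 1) → Fin 3 → H, (∀ j a, (j ∈ LK2_rows I → a ≠ e j) → v j a = v' j a) →
      (E v ↔ E v') := by
    intro v v' h
    have h1 : ∀ j ∈ J, ∀ a, v j a = v' j a := fun j hj a =>
      h j a fun hj' => absurd ((LK2_mem_rows I j).1 hj') (hJI j hj)
    have h2 : rest e v j0 = rest e v' j0 := by
      unfold rest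
      exact Finset.prod_congr rfl fun a _ => by rw [h1 j0 hj0 a]
    have h3 : ∑ j ∈ J, ∏ a, (v j a : F) = ∑ j ∈ J, ∏ a, (v' j a : F) :=
      Finset.sum_congr rfl fun j hj => Finset.prod_congr rfl fun a _ => by rw [h1 j hj a]
    show (IsU P (rest e v j0) ∧ ∑ j ∈ J, ∏ a, (v j a : F) ∈ P.M i0) ↔
      (IsU P (rest e v' j0) ∧ ∑ j ∈ J, ∏ a, (v' j a : F) ∈ P.M i0)
    rw [h2, h3]
  have htool := K0_tool H W hW i c e he v0 (LK2_rows I) E hE
  have hrest := LK2_rest H W hW r i c e v0 y I hi hn hI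
  -- the fibres of the event
  have hSm : ∀ v x, Sm v ↔ Sm (put j0 (e j0) v x) := by
    intro v x
    refine forall_congr' fun j => ?_
    by_cases hj : j = j0
    · subst hj
      rw [LK5_put_row j (e j) v x (c j) (he j).symm]
    · rw [LK5_put_ne j0 (e j0) v x j hj]
  have hfib : ∀ v, Nat.card {x : H // E (put j0 (e j0) v x)} * Fintype.card K ≤ Fintype.card H := by
    intro v
    have h1 : ∀ x, rest e (put j0 (e j0) v x) j0 = rest e v j0 := by
      intro x
      unfold rest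
      refine Finset.prod_congr rfl fun a ha => ?_
      rw [LK5_put_row j0 (e j0) v x a (Finset.ne_of_mem_erase ha)]
    have h2 : ∀ x : H, ∑ j ∈ J, ∏ a, ((put j0 (e j0) v x j a : H) : F) =
        rest e v j0 * (x : F) + ∑ j ∈ J.erase j0, ∏ a, (v j a : F) := by
      intro x
      rw [← Finset.add_sum_erase J _ hj0, LK5_prod e _ j0, h1, LK5_put_same]
      congr 1
      refine Finset.sum_congr rfl fun j hj => ?_
      rw [LK5_put_ne j0 (e j0) v x j (Finset.ne_of_mem_erase hj)]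
    by_cases hrho : IsU P (rest e v j0)
    · refine le_trans (Nat.mul_le_mul_right _ (LK5_mono fun x hx => ?_))
        (LC_coset P H ⟨r, hr⟩ i0 (rest e v j0) (∑ j ∈ J.erase j0, ∏ a, (v j a : F)) hrho)
      have h3 : ∑ j ∈ J, ∏ a, ((put j0 (e j0) v x j a : H) : F) ∈ P.M i0 := hx.2
      rwa [h2] at h3
    · have hemp : IsEmpty {x : H // E (put j0 (e j0) v x)} := ⟨fun x => hrho (by
        have h3 : IsU P (rest e (put j0 (e j0) v x.1) j0) := x.2.1
        rwa [h1] at h3)⟩
      rw [Nat.card_of_isEmpty, zero_mul]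
      exact Nat.zero_le _
  have hcount := LC_fiber j0 (e j0) Sm E (Fintype.card K) hSm hfib
  have hfix := K0_fix i c v0 (fun _ : Fin (N + 1) → Fin 3 → H => True) (fun _ _ _ => Iff.rfl)
  have htot : Nat.card {v : Fin (N + 1) → Fin 3 → H // Sm v} * Fintype.card H ^ N =
      Fintype.card H ^ (3 * (N + 1)) := by
    have h1 : Nat.card {v : Fin (N + 1) → Fin 3 → H // Sm v} =
        Nat.card {v : Fin (N + 1) → Fin 3 → H // (∀ j, j ≠ i → v j (c j) = v0 j (c j)) ∧ True} :=
      Nat.card_congr (Equiv.subtypeEquivRight fun v => ⟨fun h => ⟨h, trivial⟩, fun h => h.1⟩)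
    rw [h1, hfix, Nat.card_congr (Equiv.subtypeUnivEquiv (fun _ => trivial)), Nat.card_fun, Nat.card_fun,
      Nat.card_eq_fintype_card (α := Fin 3), Fintype.card_fin,
      Nat.card_eq_fintype_card (α := Fin (N + 1)), Fintype.card_fin, ← pow_mul,
      Nat.card_eq_fintype_card (α := H)]
  -- `1 ≤ finrank W`
  have hfin : Module.Finite K W := Module.Finite.of_finite
  have hW1 : 1 ≤ Module.finrank K W := by
    have hr' : ((r : F) * r * r) ≠ 0 := mul_ne_zero (mul_ne_zero hr.ne hr.ne) hr.ne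
    have : Nontrivial W := ⟨⟨⟨(r : F) * r * r, hW r r r⟩, 0, by
      intro hh
      exact hr' (congrArg Subtype.val hh)⟩⟩
    exact Module.finrank_pos
  have h0 : Nat.card {v : Fin (N + 1) → Fin 3 → H // (∀ j, j ≠ i → v j (c j) = v0 j (c j)) ∧
        fsum v = 0 ∧ Cov H W Finset.univ (rest e v) ∧ (∀ j a, IsU P (v j a : F)) ∧
        ∑ j ∈ J, ∏ a, (v j a : F) ∈ P.M i0} ≤
      Nat.card {v : Fin (N + 1) → Fin 3 → H // (∀ j, j ≠ i → v j (c j) = v0 j (c j)) ∧
        fsum v = 0 ∧ Cov H W Finset.univ (rest e v) ∧ E v} := by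
    refine LK5_mono ?_
    rintro v ⟨g1, g2, g3, g4, g5⟩
    exact ⟨g1, g2, g3, IsU.prod _ _ fun a _ => g4 j0 a, g5⟩
  obtain ⟨A, hA⟩ : ∃ A, A = Nat.card {v : Fin (N + 1) → Fin 3 → H //
      (∀ j, j ≠ i → v j (c j) = v0 j (c j)) ∧
        fsum v = 0 ∧ Cov H W Finset.univ (rest e v) ∧ (∀ j a, IsU P (v j a : F)) ∧
        ∑ j ∈ J, ∏ a, (v j a : F) ∈ P.M i0} := ⟨_, rfl⟩
  obtain ⟨A', hA'⟩ : ∃ A', A' = Nat.card {v : Fin (N + 1) → Fin 3 → H //
      (∀ j, j ≠ i → v j (c j) = v0 j (c j)) ∧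
        fsum v = 0 ∧ Cov H W Finset.univ (rest e v) ∧ E v} := ⟨_, rfl⟩
  obtain ⟨B, hB⟩ : ∃ B, B = Nat.card {v : Fin (N + 1) → Fin 3 → H //
      (∀ j, j ≠ i → v j (c j) = v0 j (c j)) ∧ ¬ Cov H W (LK2_rows I) (rest e v)} := ⟨_, rfl⟩
  obtain ⟨C, hC⟩ : ∃ C, C = Nat.card {v : Fin (N + 1) → Fin 3 → H //
      (∀ j, j ≠ i → v j (c j) = v0 j (c j)) ∧ E v} := ⟨_, rfl⟩
  obtain ⟨D, hD⟩ : ∃ D, D = Nat.card {v : Fin (N + 1) → Fin 3 → H // Sm v} := ⟨_, rfl⟩
  rw [← hA, ← hA'] at h0
  rw [← hA', ← hB, ← hC] at htool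
  rw [← hB] at hrest
  rw [← hD] at htot
  have hcount' : C * Fintype.card K ≤ D := by
    rw [hC, hD]
    exact hcount
  rw [← hA]
  have h5 : C * Fintype.card K * Fintype.card H ^ N ≤ Fintype.card H ^ (3 * (N + 1)) := by
    rw [← htot]
    exact Nat.mul_le_mul_right _ hcount'
  calc Nat.card W * A * Fintype.card K * Fintype.card H ^ N
      ≤ Nat.card W * A' * Fintype.card K * Fintype.card H ^ N := by gcongr
    _ ≤ (B + C) * Fintype.card K * Fintype.card H ^ N := by gcongr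
    _ = B * Fintype.card K * Fintype.card H ^ N + C * Fintype.card K * Fintype.card H ^ N := by ring
    _ ≤ 2 * Module.finrank K W * Fintype.card H ^ (3 * (N + 1)) + 1 * Fintype.card H ^ (3 * (N + 1)) := by
        rw [one_mul]
        exact Nat.add_le_add hrest h5
    _ ≤ 2 * Module.finrank K W * Fintype.card H ^ (3 * (N + 1)) +
          Module.finrank K W * Fintype.card H ^ (3 * (N + 1)) := by gcongr
    _ = 3 * Module.finrank K W * Fintype.card H ^ (3 * (N + 1)) := by ring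

private theorem LK5_sum_list {M : Type*} [AddCommMonoid M] {α : Type*} [DecidableEq α] (l : List α)
    (hl : l.Nodup) (f : α → M) : (l.map f).sum = ∑ x ∈ l.toFinset, f x :=
  (List.sum_toFinset f hl).symm

theorem LK5_chain [Fintype K] (P : SL K F) (H W : Submodule K F) [Fintype H] [Finite W]
    (hW : ∀ a b c : H, (a : F) * (b : F) * (c : F) ∈ W)
    (r : H) (i : Fin (N + 1)) (c e : Fin (N + 1) → Fin 3) (he : ∀ j, e j ≠ c j)
    (v0 : Fin (N + 1) → Fin 3 → H) (hv0 : GoodL P H W (rtup r i c v0)) :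
    ∃ l : List (Fin N), l.Nodup ∧ (∀ j, j ∈ l) ∧ ∀ t, 0 < t → t ≤ N → ∀ i0 : Fin P.r,
      Nat.card W * Nat.card {v : Fin (N + 1) → Fin 3 → H // (∀ j, j ≠ i → v j (c j) = v0 j (c j)) ∧
          fsum v = 0 ∧ Cov H W Finset.univ (rest e v) ∧ (∀ j a, IsU P (v j a : F)) ∧
          ((l.take t).map fun j => ∏ a, (v j.succ a : F)).sum ∈ P.M i0} * Fintype.card K * Fintype.card H ^ N
        ≤ 3 * Module.finrank K W * Fintype.card H ^ (3 * (N + 1)) := by
  classical
  have hr : IsU P (r : F) := hv0.1 0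
  obtain ⟨-, y, I, hdis, hav, hcov⟩ := (K0_good_iff H W r i c v0).mp hv0.2
  obtain ⟨a, b, hab, ha, hb, ha0⟩ := LK2_pick2 I hdis none (some 0)
  obtain ⟨l₁, hl₁⟩ : ∃ l₁ : List (Fin N), l₁ = (Finset.univ.filter fun j : Fin N => some j.succ ∈ I a).toList :=
    ⟨_, rfl⟩
  obtain ⟨l₂, hl₂⟩ : ∃ l₂ : List (Fin N), l₂ = (Finset.univ.filter fun j : Fin N => some j.succ ∉ I a).toList :=
    ⟨_, rfl⟩
  have m₁ : ∀ j, j ∈ l₁ ↔ some j.succ ∈ I a := fun j => by
    rw [hl₁, Finset.mem_toList, Finset.mem_filter]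
    exact and_iff_right (Finset.mem_univ _)
  have m₂ : ∀ j, j ∈ l₂ ↔ some j.succ ∉ I a := fun j => by
    rw [hl₂, Finset.mem_toList, Finset.mem_filter]
    exact and_iff_right (Finset.mem_univ _)
  have hnd : (l₁ ++ l₂).Nodup := by
    rw [List.nodup_append']
    refine ⟨hl₁ ▸ Finset.nodup_toList _, hl₂ ▸ Finset.nodup_toList _, fun j h1 h2 => ?_⟩
    exact (m₂ j).1 h2 ((m₁ j).1 h1)
  have hall : ∀ j, j ∈ l₁ ++ l₂ := fun j => by
    rw [List.mem_append, m₁, m₂]
    exact em _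
  refine ⟨l₁ ++ l₂, hnd, hall, fun t ht htN i0 => ?_⟩
  have hlen : (l₁ ++ l₂).length = N := by
    have h1 : (l₁ ++ l₂).toFinset = Finset.univ := by
      ext j
      rw [List.mem_toFinset]
      exact iff_of_true (hall j) (Finset.mem_univ j)
    rw [← List.toFinset_card_of_nodup hnd, h1, Finset.card_univ, Fintype.card_fin]
  obtain ⟨L, hL⟩ : ∃ L : List (Fin N), L = (l₁ ++ l₂).take t := ⟨_, rfl⟩
  have hLnd : L.Nodup := hL ▸ hnd.sublist (List.take_sublist t _)
  have hLlen : L.length = t := by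
    rw [hL, List.length_take, hlen]
    exact min_eq_left htN
  have hLne : L ≠ [] := fun h => by
    rw [h, List.length_nil] at hLlen
    omega
  -- the rows
  obtain ⟨J, hJ⟩ : ∃ J : Finset (Fin (N + 1)), J = L.toFinset.map (Fin.succEmb N) := ⟨_, rfl⟩
  have hJm : ∀ j : Fin N, j.succ ∈ J ↔ j ∈ L := fun j => by
    rw [hJ, Finset.mem_map]
    constructor
    · rintro ⟨k, hk, hkj⟩
      have h1 : k = j := Fin.succ_injective N hkj
      rw [← h1]
      exact List.mem_toFinset.1 hk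
    · intro h
      exact ⟨j, List.mem_toFinset.2 h, rfl⟩
  have hJs : ∀ j ∈ J, ∃ k : Fin N, j = k.succ := fun j hj => by
    rw [hJ, Finset.mem_map] at hj
    obtain ⟨k, -, hk⟩ := hj
    exact ⟨k, hk.symm⟩
  have hsum : ∀ v : Fin (N + 1) → Fin 3 → H, (L.map fun j => ∏ a, (v j.succ a : F)).sum =
      ∑ j ∈ J, ∏ a, (v j a : F) := fun v => by
    rw [LK5_sum_list L hLnd, hJ, Finset.sum_map]
    rfl
  have hset : ∀ v : Fin (N + 1) → Fin 3 → H,
      (((l₁ ++ l₂).take t).map fun j => ∏ a, (v j.succ a : F)).sum = ∑ j ∈ J, ∏ a, (v j a : F) := fun v => by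
    rw [← hL]
    exact hsum v
  simp only [hset]
  rcases le_or_gt t l₁.length with htl | htl
  · -- the rows of `J` are in the first witness set
    have hL1 : ∀ j ∈ L, j ∈ l₁ := fun j hj => by
      rw [hL, List.take_append_of_le_length htl] at hj
      exact List.mem_of_mem_take hj
    refine LK5_sum P H W hW r i c e he v0 hr y (I b) (hav b) hb (hcov b) J ?_ ?_ i0
    · obtain ⟨j, hj⟩ := List.exists_mem_of_ne_nil L hLne
      exact ⟨j.succ, (hJm j).2 hj⟩
    · intro j hj
      obtain ⟨k, rfl⟩ := hJs j hj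
      have h1 : some k.succ ∈ I a := (m₁ k).1 (hL1 k ((hJm k).1 hj))
      exact Finset.disjoint_left.1 (hdis a b hab) h1
  · -- the complement avoids the first witness set
    have hL1 : ∀ j ∈ l₁, j ∈ L := fun j hj => by
      rw [hL, List.take_append, List.mem_append]
      left
      rwa [List.take_of_length_le htl.le]
    have hmain := LK5_sum P H W hW r i c e he v0 hr y (I a) (hav a) ha (hcov a) Jᶜ ?_ ?_ i0
    · refine le_trans (Nat.mul_le_mul_right _ (Nat.mul_le_mul_right _ (Nat.mul_le_mul_left _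
        (LK5_mono ?_)))) hmain
      rintro v ⟨g1, g2, g3, g4, g5⟩
      refine ⟨g1, g2, g3, g4, ?_⟩
      have h1 : ∑ j ∈ J, ∏ a, (v j a : F) + ∑ j ∈ Jᶜ, ∏ a, (v j a : F) = 0 := by
        rw [Finset.sum_add_sum_compl]
        exact g2
      rw [eq_neg_of_add_eq_zero_right h1]
      exact (P.M i0).neg_mem g5
    · refine ⟨0, ?_⟩
      rw [Finset.mem_compl]
      intro h
      obtain ⟨k, hk⟩ := hJs 0 h
      exact Fin.succ_ne_zero k hk.symm
    · intro j hj
      rw [Finset.mem_compl] at hj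
      rcases Fin.eq_zero_or_eq_succ j with h | ⟨k, hk⟩
      · rw [h]
        exact ha0
      · rw [hk] at hj ⊢
        intro h
        exact hj ((hJm k).2 (hL1 k ((m₁ k).2 h)))

end Pool.Agent.MP_b197b4_ntLV
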